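import Mathlib

/-! Products of two reflections preserving a lattice. -/

set_option autoImplicit false

namespace Pool.Agent.Lib.MPf9c64b

section ring
variable {A : Type*} [Ring A] [Algebra ℝ A]

theorem pow_one_add_of_sq {N : A} (hN : N * N = 0) (m : ℕ) :
    (1 + N) ^ m = 1 + (m : ℝ) • N := by
  induction m with
  | zero => simp
  | succ m ih =>
    rw [pow_succ, ih]
    have : (1 + (m : ℝ) • N) * (1 + N) = 1 + N + (m : ℝ) • N + (m : ℝ) • (N * N) := by
      rw [mul_add, mul_one, add_mul, one_mul, smul_mul_assoc]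
      abel
    rw [this, hN]
    push_cast
    rw [add_smul, one_smul, smul_zero]
    abel

theorem mul_pow_one_add_of_cube {N : A} (hN : N * N * N = 0) (m : ℕ) :
    N * (1 + N) ^ m = N + (m : ℝ) • (N * N) := by
  induction m with
  | zero => simp
  | succ m ih =>
    rw [pow_succ, ← mul_assoc, ih]
    have : (N + (m : ℝ) • (N * N)) * (1 + N)
        = N + N * N + (m : ℝ) • (N * N) + (m : ℝ) • (N * N * N) := by
      rw [mul_add, mul_one, add_mul, smul_mul_assoc]
      abel
    rw [this, hN]
    push_cast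
    rw [add_smul, one_smul, smul_zero]
    abel

theorem eq_zero_of_sq {N : A} (hN : N * N = 0) {m : ℕ} (hm : 0 < m) (h : (1 + N) ^ m = 1) :
    N = 0 := by
  rw [pow_one_add_of_sq hN] at h
  have h2 : (m : ℝ) • N = 0 := by
    have := congrArg (fun z => z - 1) h
    simpa using this
  have h3 : (m : ℝ) ≠ 0 := by exact_mod_cast hm.ne'
  exact (smul_eq_zero.mp h2).resolve_left h3

theorem eq_zero_of_cube {N : A} (hN : N * N * N = 0) {m : ℕ} (hm : 0 < m)
    (h : (1 + N) ^ m = 1) : N = 0 := by
  have h1 := mul_pow_one_add_of_cube hN m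
  rw [h, mul_one] at h1
  have h2 : (m : ℝ) • (N * N) = 0 := by
    have := congrArg (fun z => z - N) h1
    simpa using this.symm
  have h3 : (m : ℝ) ≠ 0 := by exact_mod_cast hm.ne'
  exact eq_zero_of_sq ((smul_eq_zero.mp h2).resolve_left h3) hm h

/-- The key cases. -/
theorem pow_four_or_six {T : A} {k : ℤ} (hk : |k| ≤ 2)
    (hT : (T * T - (k : ℝ) • T + 1) * (T - 1) = 0) {m : ℕ} (hm : 0 < m) (hTm : T ^ m = 1) :
    T ^ 4 = 1 ∨ T ^ 6 = 1 := by
  have hk2 := abs_le.mp hk
  obtain ⟨hk1, hk3⟩ := hk2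
  interval_cases k
  · -- k = -2
    left
    have hsq : (T * T - 1) * (T * T - 1) = 0 := by
      have e : (T * T - 1) * (T * T - 1)
          = ((T * T - ((-2 : ℤ) : ℝ) • T + 1) * (T - 1)) * (T - 1) := by
        have : (((-2 : ℤ) : ℝ)) • T = -(2 * T) := by
          rw [show (((-2 : ℤ) : ℝ)) = -2 by norm_num, neg_smul, ofNat_smul_eq_nsmul]
          simp [two_mul, two_nsmul]
        rw [this]
        noncomm_ring
      rw [e, hT, zero_mul]
    have h2 : (1 + (T * T - 1)) ^ m = 1 := by
      have : (1 + (T * T - 1)) = T ^ 2 := by rw [pow_two]; abel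
      rw [this, ← pow_mul, mul_comm, pow_mul, hTm, one_pow]
    have h3 := eq_zero_of_sq hsq hm h2
    have h4 : T * T = 1 := sub_eq_zero.mp h3
    calc T ^ 4 = (T * T) * (T * T) := by noncomm_ring
      _ = 1 := by rw [h4, one_mul]
  · -- k = -1
    right
    have e : T ^ 3 - 1 = (T * T - ((-1 : ℤ) : ℝ) • T + 1) * (T - 1) := by
      have : (((-1 : ℤ) : ℝ)) • T = -T := by
        rw [show (((-1 : ℤ) : ℝ)) = -1 by norm_num, neg_smul, one_smul]
      rw [this]
      noncomm_ring
    rw [hT] at e
    have h3 : T ^ 3 = 1 := sub_eq_zero.mp e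
    calc T ^ 6 = (T ^ 3) ^ 2 := by rw [← pow_mul]
      _ = 1 := by rw [h3, one_pow]
  · -- k = 0
    left
    have e : T ^ 4 - 1 = (T + 1) * ((T * T - ((0 : ℤ) : ℝ) • T + 1) * (T - 1)) := by
      have : (((0 : ℤ) : ℝ)) • T = 0 := by simp
      rw [this]
      noncomm_ring
    rw [hT, mul_zero] at e
    exact sub_eq_zero.mp e
  · -- k = 1
    right
    have e : T ^ 6 - 1 = ((T + 1) * (T * T + T + 1)) * ((T * T - ((1 : ℤ) : ℝ) • T + 1) * (T - 1)) := by
      have : (((1 : ℤ) : ℝ)) • T = T := by simp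
      rw [this]
      noncomm_ring
    rw [hT, mul_zero] at e
    exact sub_eq_zero.mp e
  · -- k = 2
    left
    have hcu : (T - 1) * (T - 1) * (T - 1) = 0 := by
      have e : (T - 1) * (T - 1) * (T - 1) = ((T * T - ((2 : ℤ) : ℝ) • T + 1) * (T - 1)) := by
        have : (((2 : ℤ) : ℝ)) • T = (2 * T) := by
          rw [show (((2 : ℤ) : ℝ)) = 2 by norm_num, ofNat_smul_eq_nsmul]
          simp [two_mul, two_nsmul]
        rw [this]
        noncomm_ring
      rw [e, hT]
    have h2 : (1 + (T - 1)) ^ m = 1 := by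
      rw [show (1 + (T - 1)) = T by abel, hTm]
    have h3 := eq_zero_of_cube hcu hm h2
    have h4 : T = 1 := sub_eq_zero.mp h3
    rw [h4, one_pow]

end ring

section refl
variable {V : Type*} [AddCommGroup V] [Module ℝ V]

/-- Composition of two reflections. -/
theorem two_reflections (T : V →ₗ[ℝ] V) (a c : V) (f g : Module.Dual ℝ V)
    (fa : f a = 2) (gc : g c = 2)
    (hT : ∀ v, T v = v - g v • c - f v • a + (g v * f c) • a) (k : ℤ)
    (hk : f c * g a - 2 = k) {m : ℕ} (hm : 0 < m) (hTm : T ^ m = 1) :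
    T ^ 4 = 1 ∨ T ^ 6 = 1 := by
  have hTc : T c = -c + f c • a := by
    rw [hT, gc]; module
  have hTa : T a = (f c * g a - 1) • a - g a • c := by
    rw [hT, fa]; module
  have hNc : T (T c) = (k : ℝ) • T c - c := by
    rw [hTc, map_add, map_neg, map_smul, hTc, hTa, ← hk]
    module
  have hNa : T (T a) = (k : ℝ) • T a - a := by
    rw [hTa, map_sub, map_smul, map_smul, hTc, hTa, ← hk]
    module
  -- |k| ≤ 2
  have hk2 : |k| ≤ 2 := by
    by_contra hcon
    have h3 : (3 : ℤ) ≤ |k| := by
      have := not_le.mp hcon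
      omega
    have h3' : (3 : ℝ) ≤ |(k : ℝ)| := by exact_mod_cast h3
    let z : ℕ → ℝ := fun j => g ((T ^ j) c)
    have z0 : z 0 = 2 := by simp [z, gc]
    have z1 : z 1 = k := by
      simp only [z, pow_one, hTc, map_add, map_neg, map_smul, gc, smul_eq_mul]
      rw [← hk]; ring
    have hrec : ∀ j, z (j + 2) = k * z (j + 1) - z j := by
      intro j
      simp only [z]
      have e2 : (T ^ (j + 2)) c = (T ^ j) (T (T c)) := by
        rw [pow_add, pow_two]; rfl
      have e1 : (T ^ (j + 1)) c = (T ^ j) (T c) := by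
        rw [pow_add, pow_one]; rfl
      rw [e2, e1, hNc, map_sub, map_smul, map_sub, map_smul, smul_eq_mul]
    have hmono : ∀ j, 2 ≤ |z j| ∧ |z j| < |z (j + 1)| := by
      intro j
      induction j with
      | zero =>
        rw [z0, z1]
        refine ⟨by norm_num, ?_⟩
        rw [abs_of_pos (by norm_num : (0 : ℝ) < 2)]
        linarith
      | succ j ih =>
        refine ⟨by linarith [ih.1, ih.2], ?_⟩
        rw [hrec j]
        have e1 : |(k : ℝ) * z (j + 1)| ≤ |k * z (j + 1) - z j| + |z j| := by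
          have := abs_sub_abs_le_abs_sub ((k : ℝ) * z (j + 1)) (z j)
          linarith
        rw [abs_mul] at e1
        have e2 : 3 * |z (j + 1)| ≤ |(k : ℝ)| * |z (j + 1)| :=
          mul_le_mul_of_nonneg_right h3' (abs_nonneg _)
        linarith [ih.1, ih.2]
    have hgt : ∀ j, 2 < |z (j + 1)| := by
      intro j
      linarith [(hmono j).1, (hmono j).2]
    obtain ⟨j, rfl⟩ : ∃ j, m = j + 1 := ⟨m - 1, by omega⟩
    have h4 := hgt j
    have h5 : z (j + 1) = 2 := by simp [z, hTm, gc]
    rw [h5] at h4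
    norm_num at h4
  refine pow_four_or_six (T := T) hk2 ?_ hm hTm
  ext v
  have h1 : (T - 1) v = (-(g v)) • c + (g v * f c - f v) • a := by
    rw [LinearMap.sub_apply, Module.End.one_apply, hT]
    module
  rw [Module.End.mul_apply, h1]
  simp only [map_add, map_smul]
  have h2 : (T * T - (k : ℝ) • T + 1) c = 0 := by
    simp only [LinearMap.add_apply, LinearMap.sub_apply, Module.End.mul_apply,
      LinearMap.smul_apply, Module.End.one_apply]
    rw [hNc]; module
  have h3 : (T * T - (k : ℝ) • T + 1) a = 0 := by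
    simp only [LinearMap.add_apply, LinearMap.sub_apply, Module.End.mul_apply,
      LinearMap.smul_apply, Module.End.one_apply]
    rw [hNa]; module
  rw [h2, h3]
  simp

end refl

end Pool.Agent.Lib.MPf9c64b
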