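import Mathlib

/-! General position: complements of codimension two subsets. -/

set_option autoImplicit false

open Topology Set

namespace Pool.Agent.Lib.MPf9c64b

section vec
variable {q : ℕ}

theorem dense_ne {f : Module.Dual ℝ (Fin q → ℝ)} (hf : f ≠ 0) (c : ℝ) :
    Dense {v : Fin q → ℝ | f v ≠ c} := by
  obtain ⟨d, hd⟩ : ∃ d, f d ≠ 0 := by
    by_contra hcon
    push Not at hcon
    exact hf (LinearMap.ext fun v => by simpa using hcon v)
  intro v
  by_cases hv : f v = c
  · rw [mem_closure_iff_seq_limit]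
    refine ⟨fun n => v + ((1 : ℝ) / (n + 1)) • d, fun n => ?_, ?_⟩
    · change f (v + ((1 : ℝ) / (n + 1)) • d) ≠ c
      rw [map_add, map_smul, hv, smul_eq_mul]
      intro h
      have h1 : (1 : ℝ) / (n + 1) * f d = 0 := by linarith
      have h2 : (1 : ℝ) / (n + 1) ≠ 0 := by positivity
      exact (mul_ne_zero h2 hd) h1
    · have h1 : Filter.Tendsto (fun n : ℕ => (1 : ℝ) / (n + 1)) Filter.atTop (𝓝 0) :=
        tendsto_one_div_add_atTop_nhds_zero_nat
      have h2 := (h1.smul_const d).const_add v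
      simpa using h2
  · exact subset_closure hv

theorem isOpen_ne' (f : Module.Dual ℝ (Fin q → ℝ)) (c : ℝ) :
    IsOpen {v : Fin q → ℝ | f v ≠ c} :=
  isOpen_ne_fun (LinearMap.continuous_of_finiteDimensional f) continuous_const

theorem dense_forall_ne {ι : Type*} [Finite ι] (f : ι → Module.Dual ℝ (Fin q → ℝ))
    (hf : ∀ i, f i ≠ 0) (c : ι → ℝ) : Dense {v : Fin q → ℝ | ∀ i, f i v ≠ c i} := by
  have : {v : Fin q → ℝ | ∀ i, f i v ≠ c i} = ⋂ i, {v | f i v ≠ c i} := by
    ext v; simp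
  rw [this]
  exact dense_iInter_of_isOpen (fun i => isOpen_ne' (f i) (c i)) (fun i => dense_ne (hf i) (c i))

/-- complement of finitely many codimension two affine subspaces in a convex open set -/
theorem isPreconnected_diff {ι : Type*} [Finite ι] (f g : ι → Module.Dual ℝ (Fin q → ℝ))
    (κ μ : ι → ℝ) (hind : ∀ i, ∀ c d : ℝ, c • f i + d • g i = 0 → c = 0 ∧ d = 0)
    {B : Set (Fin q → ℝ)} (hB : IsOpen B) (hBc : Convex ℝ B) :
    IsPreconnected (B \ {v | ∃ i, f i v = κ i ∧ g i v = μ i}) := by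
  classical
  apply isPreconnected_of_forall_pair
  rintro u ⟨hu, hu'⟩ v ⟨hv, hv'⟩
  -- functional vanishing (as affine function) on `u` and on `F i`
  let G : (Fin q → ℝ) → ι → Module.Dual ℝ (Fin q → ℝ) := fun u i =>
    (g i u - μ i) • f i + (-(f i u - κ i)) • g i
  have hG : ∀ u, (¬ ∃ i, f i u = κ i ∧ g i u = μ i) → ∀ i, G u i ≠ 0 := by
    intro u hu i h0
    obtain ⟨h1, h2⟩ := hind i _ _ h0
    exact hu ⟨i, by linarith, by linarith⟩
  have hd : Dense {w : Fin q → ℝ | ∀ j : ι ⊕ ι, (Sum.elim (G u) (G v) j) w ≠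
      (Sum.elim (fun i => G u i u) (fun i => G v i v) j)} := by
    apply dense_forall_ne
    rintro (i | i)
    · exact hG u hu' i
    · exact hG v hv' i
  obtain ⟨w, hwB, hw⟩ := hd.inter_open_nonempty B hB ⟨u, hu⟩
  have hwu : ∀ i, G u i w ≠ G u i u := fun i => hw (Sum.inl i)
  have hwv : ∀ i, G v i w ≠ G v i v := fun i => hw (Sum.inr i)
  have hseg : ∀ u, u ∈ B → (¬ ∃ i, f i u = κ i ∧ g i u = μ i) → (∀ i, G u i w ≠ G u i u) →
      segment ℝ u w ⊆ B \ {v | ∃ i, f i v = κ i ∧ g i v = μ i} := by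
    intro u hu hu' hwu y hy
    refine ⟨hBc.segment_subset hu hwB hy, ?_⟩
    rintro ⟨i, h1, h2⟩
    obtain ⟨α, β, hα, hβ, hab, rfl⟩ := hy
    -- A(y) = β A(w)
    rw [map_add, map_smul, map_smul, smul_eq_mul, smul_eq_mul] at h1 h2
    have hα' : α = 1 - β := by linarith
    subst hα'
    by_cases hβ0 : β = 0
    · subst hβ0
      apply hu'
      exact ⟨i, by linarith, by linarith⟩
    · apply hwu i
      simp only [G, LinearMap.add_apply, LinearMap.smul_apply, smul_eq_mul]
      have e1 : β * (f i w - κ i) = -((1 - β) * (f i u - κ i)) := by linarith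
      have e2 : β * (g i w - μ i) = -((1 - β) * (g i u - μ i)) := by linarith
      have e3 : β * ((g i u - μ i) * (f i w - κ i) - (f i u - κ i) * (g i w - μ i)) = 0 := by
        have : β * ((g i u - μ i) * (f i w - κ i) - (f i u - κ i) * (g i w - μ i))
            = (g i u - μ i) * (β * (f i w - κ i)) - (f i u - κ i) * (β * (g i w - μ i)) := by ring
        rw [this, e1, e2]; ring
      have e4 := (mul_eq_zero.mp e3).resolve_left hβ0
      linarith
  refine ⟨segment ℝ u w ∪ segment ℝ v w, union_subset (hseg u hu hu' hwu) (hseg v hv hv' hwv),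
    Or.inl (left_mem_segment ℝ u w), Or.inr (left_mem_segment ℝ v w), ?_⟩
  exact IsPreconnected.union w (right_mem_segment ℝ u w) (right_mem_segment ℝ v w)
    (convex_segment u w).isPreconnected (convex_segment v w).isPreconnected

end vec

/-- local-to-global: removing a closed nowhere dense set which does not separate locally. -/
theorem isPreconnected_compl_of_local {X : Type*} [TopologicalSpace X] [PreconnectedSpace X]
    {Z : Set X} (hd : Dense Zᶜ)
    (hloc : ∀ x : X, ∃ U ∈ 𝓝 x, IsPreconnected (U \ Z)) : IsPreconnected Zᶜ := by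
  intro u v hu hv huv hnu hnv
  by_contra hcon
  rw [not_nonempty_iff_eq_empty] at hcon
  have hA : (closure (Zᶜ ∩ u)).Nonempty := hnu.closure
  have hB : (closure (Zᶜ ∩ v)).Nonempty := hnv.closure
  have hcov : (univ : Set X) ⊆ closure (Zᶜ ∩ u) ∪ closure (Zᶜ ∩ v) := by
    rw [← closure_union, ← inter_union_distrib_left]
    intro x _
    have : Zᶜ ∩ (u ∪ v) = Zᶜ := inter_eq_left.mpr huv
    rw [this]
    exact hd x
  have h1 := isPreconnected_closed_iff.mp (isPreconnected_univ (α := X)) _ _ isClosed_closure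
    isClosed_closure hcov (by simpa using hA) (by simpa using hB)
  obtain ⟨x, -, hxA, hxB⟩ := h1
  obtain ⟨U, hU, hUZ⟩ := hloc x
  obtain ⟨y, hyU, hyZ, hyu⟩ := mem_closure_iff_nhds.mp hxA U hU
  obtain ⟨z, hzU, hzZ, hzv⟩ := mem_closure_iff_nhds.mp hxB U hU
  have h2 := hUZ u v hu hv (fun t ht => huv ht.2) ⟨y, ⟨hyU, hyZ⟩, hyu⟩ ⟨z, ⟨hzU, hzZ⟩, hzv⟩
  obtain ⟨t, ⟨-, ht⟩, ht2⟩ := h2
  have : t ∈ Zᶜ ∩ (u ∩ v) := ⟨ht, ht2⟩
  rw [hcon] at this
  exact this

end Pool.Agent.Lib.MPf9c64b
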