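import Mathlib

/-! Integral affine actions on a simply connected integral affine manifold, given through a
developing map, and geometric reflections. -/

set_option autoImplicit false

open Topology Set

namespace Pool.Agent.Lib.MPf9c64b

/-- The real matrix of an element of `GL_q(ℤ)`. -/
def realMat {q : ℕ} (M : GL (Fin q) ℤ) : Matrix (Fin q) (Fin q) ℝ :=
  (M : Matrix (Fin q) (Fin q) ℤ).map (Int.cast : ℤ → ℝ)

/-- An action of `W` on the space `X` by integral affine transformations, where `X` carries the
integral affine structure pulled back from `ℝ^q` by the local homeomorphism `dev` (the developing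
map): `dev (w • x) = L(w) dev x + b(w)` with `L(w) ∈ GL_q(ℤ)`, `b(w) ∈ ℝ^q`. -/
structure IntegralAffineAction (q : ℕ) (W X : Type*) [TopologicalSpace X] [Group W]
    [MulAction W X] where
  /-- the developing map -/
  dev : X → (Fin q → ℝ)
  dev_isLocalHomeomorph : IsLocalHomeomorph dev
  /-- the linear holonomy -/
  lin : W →* GL (Fin q) ℤ
  /-- the translation part of the affine holonomy -/
  trans : W → (Fin q → ℝ)
  dev_smul : ∀ (w : W) (x : X), dev (w • x) = (realMat (lin w)).mulVec (dev x) + trans w

/-- `r` is a geometric reflection: it has a fixed point and its linear part is a reflection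
`v ↦ v - f(v) a`, `f(a) = 2`, across the hyperplane `f = 0` of `ℝ^q`. -/
def IntegralAffineAction.IsGeometricReflection {q : ℕ} {W X : Type*} [TopologicalSpace X]
    [Group W] [MulAction W X] (I : IntegralAffineAction q W X) (r : W) : Prop :=
  (∃ x : X, r • x = x) ∧
    ∃ (a : Fin q → ℝ) (f : Module.Dual ℝ (Fin q → ℝ)), f a = 2 ∧
      ∀ v, (realMat (I.lin r)).mulVec v = v - f v • a

end Pool.Agent.Lib.MPf9c64b
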