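import Mathlib

/-! Two-sidedness: a closed piece `P` of the zero set of a continuous function on a simply
connected space which is isolated in that zero set separates the space. -/

set_option autoImplicit false

open Topology Set

namespace Pool.Agent.Lib.MPf9c64b

variable {X : Type*} [TopologicalSpace X]

/-- The two-sheeted cover: over `Pᶜ` (index `true`) and over `(Z \ P)ᶜ` (index `false`) it is
trivial, and the transition function is the sign of `h`. -/
noncomputable def core (h : X → ℝ) (hc : Continuous h) (P : Set X) (hP : IsClosed P)
    (hQ : IsClosed ({x | h x = 0} \ P)) :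
    FiberBundleCore Bool X Bool where
  baseSet i := match i with
    | true => Pᶜ
    | false => ({x | h x = 0} \ P)ᶜ
  isOpen_baseSet i := by
    cases i
    · simpa using hQ.isOpen_compl
    · simpa using hP.isOpen_compl
  indexAt x := by
    classical
    exact if x ∈ P then false else true
  mem_baseSet_at x := by
    classical
    by_cases hx : x ∈ P
    · simp [hx]
    · simp [hx]
  coordChange i j x b := by
    classical
    exact if i = j then b else xor b (decide (h x < 0))
  coordChange_self i x hx v := by simp
  continuousOn_coordChange i j := by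
    classical
    by_cases hij : i = j
    · simp only [hij, if_true]
      exact continuous_snd.continuousOn
    · simp only [hij, if_false]
      -- on the overlap `h x ≠ 0`, so the sign is locally constant
      intro p hp
      have hp1 : h p.1 ≠ 0 := by
        intro h0
        have hp' := hp.1
        cases i <;> cases j <;> simp_all
      apply ContinuousAt.continuousWithinAt
      have hcont : ContinuousAt (fun q : X × Bool => (decide (h q.1 < 0) : Bool)) p := by
        have hc' : Continuous (fun q : X × Bool => h q.1) := hc.comp continuous_fst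
        rcases lt_or_gt_of_ne hp1 with hlt | hgt
        · have : ∀ᶠ q : X × Bool in 𝓝 p, h q.1 < 0 := hc'.continuousAt.eventually (gt_mem_nhds hlt)
          refine (continuousAt_const (y := true)).congr ?_
          filter_upwards [this] with q hq
          simp [hq]
        · have : ∀ᶠ q : X × Bool in 𝓝 p, 0 < h q.1 := hc'.continuousAt.eventually (lt_mem_nhds hgt)
          refine (continuousAt_const (y := false)).congr ?_
          filter_upwards [this] with q hq
          simp [not_lt.mpr hq.le]
      have hx : Continuous (fun b : Bool × Bool => xor b.1 b.2) := continuous_of_discreteTopology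
      exact hx.continuousAt.comp (continuous_snd.continuousAt.prodMk hcont)
  coordChange_comp i j k x hx v := by
    classical
    cases i <;> cases j <;> cases k <;> simp

section
variable (h : X → ℝ) (hc : Continuous h) (P : Set X) (hP : IsClosed P)
    (hQ : IsClosed ({x | h x = 0} \ P))

theorem core_tt (x : X) (b : Bool) : (core h hc P hP hQ).coordChange true true x b = b := by
  simp [core]

theorem core_tf (x : X) (b : Bool) :
    (core h hc P hP hQ).coordChange true false x b = xor b (decide (h x < 0)) := by
  simp [core]

theorem core_bt : (core h hc P hP hQ).baseSet true = Pᶜ := rfl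

theorem core_bf : (core h hc P hP hQ).baseSet false = ({x | h x = 0} \ P)ᶜ := rfl

theorem core_ix (x : X) (hx : x ∉ P) : (core h hc P hP hQ).indexAt x = true := by
  simp [core, hx]

end

/-- Existence of the side functions. -/
theorem exists_sides [SimplyConnectedSpace X] [LocallyPathConnectedSpace X]
    (h : X → ℝ) (hc : Continuous h) (P : Set X) (hP : IsClosed P)
    (hPz : ∀ x ∈ P, h x = 0) (hQ : IsClosed ({x | h x = 0} \ P)) :
    ∃ σ τ : X → Bool, ContinuousOn σ Pᶜ ∧ ContinuousOn τ ({x | h x = 0} \ P)ᶜ ∧
      ∀ x, h x ≠ 0 → σ x = xor (τ x) (decide (h x < 0)) := by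
  classical
  let Z := core h hc P hP hQ
  have hcov : IsCoveringMap (Bundle.TotalSpace.proj : Bundle.TotalSpace Bool Z.Fiber → X) :=
    FiberBundle.isCoveringMap (F := Bool) (E := Z.Fiber)
  obtain ⟨a₀⟩ : Nonempty X := inferInstance
  obtain ⟨F, ⟨-, hF⟩, -⟩ := hcov.existsUnique_continuousMap_lifts (ContinuousMap.id X) a₀
    (⟨a₀, true⟩ : Bundle.TotalSpace Bool Z.Fiber) rfl
  have hF' : ∀ x, (F x).proj = x := fun x => congrFun hF x
  refine ⟨fun x => (Z.localTriv true (F x)).2, fun x => (Z.localTriv false (F x)).2, ?_, ?_, ?_⟩
  · have h1 : ContinuousOn (Z.localTriv true) (Z.localTriv true).source :=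
      (Z.localTriv true).continuousOn
    have h2 : MapsTo F Pᶜ (Z.localTriv true).source := by
      intro x hx
      change F x ∈ (Z.localTriv true).source
      rw [(Z.localTriv true).mem_source]
      change (F x).proj ∈ Z.baseSet true
      rw [hF' x, core_bt]
      exact hx
    exact continuous_snd.comp_continuousOn (h1.comp F.continuous.continuousOn h2)
  · have h1 : ContinuousOn (Z.localTriv false) (Z.localTriv false).source :=
      (Z.localTriv false).continuousOn
    have h2 : MapsTo F ({x | h x = 0} \ P)ᶜ (Z.localTriv false).source := by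
      intro x hx
      change F x ∈ (Z.localTriv false).source
      rw [(Z.localTriv false).mem_source]
      change (F x).proj ∈ Z.baseSet false
      rw [hF' x, core_bf]
      exact hx
    exact continuous_snd.comp_continuousOn (h1.comp F.continuous.continuousOn h2)
  · intro x hx
    have hxP : x ∉ P := fun hxP => hx (hPz x hxP)
    -- localTriv i z = (z.proj, coordChange (indexAt z.proj) i z.proj z.snd)
    have e1 : (Z.localTriv true (F x)).2
        = Z.coordChange (Z.indexAt (F x).proj) true (F x).proj (F x).snd := rfl
    have e2 : (Z.localTriv false (F x)).2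
        = Z.coordChange (Z.indexAt (F x).proj) false (F x).proj (F x).snd := rfl
    have e3 : Z.indexAt (F x).proj = true := by
      rw [hF' x]; exact core_ix _ _ _ _ _ x hxP
    change (Z.localTriv true (F x)).2 = xor (Z.localTriv false (F x)).2 (decide (h x < 0))
    have e4 : Z.coordChange true true (F x).proj (F x).snd = (F x).snd :=
      core_tt h hc P hP hQ _ _
    have e5 : Z.coordChange true false (F x).proj (F x).snd
        = xor (F x).snd (decide (h (F x).proj < 0)) :=
      core_tf h hc P hP hQ _ _
    have e6 : (F x).proj = x := hF' x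
    rw [e1, e2, e3, e4, e5, e6]
    generalize (F x).snd = b
    revert b
    change ∀ b : Bool, b = xor (xor b (decide (h x < 0))) (decide (h x < 0))
    intro b
    cases b <;> simp

/-- The reflection lemma: an injective involution-like map `r` reversing the sign of `h`
and fixing `P` pointwise exchanges the two sides of `P`. -/
theorem exists_flip [SimplyConnectedSpace X] [LocallyPathConnectedSpace X]
    (h : X → ℝ) (hc : Continuous h) (P : Set X) (hP : IsClosed P)
    (hPz : ∀ x ∈ P, h x = 0) (hQ : IsClosed ({x | h x = 0} \ P)) (hne : P.Nonempty)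
    (r : X → X) (hr : Continuous r) (hinj : Function.Injective r) (hrh : ∀ x, h (r x) = - h x)
    (hrP : ∀ x ∈ P, r x = x) :
    ∃ σ : X → Bool, ContinuousOn σ Pᶜ ∧ ∀ x ∉ P, σ (r x) = ! σ x := by
  classical
  obtain ⟨σ, τ, hσ, hτ, hστ⟩ := exists_sides h hc P hP hPz hQ
  have hrU : ∀ x, x ∉ P → r x ∉ P := by
    intro x hx hrx
    have : r (r x) = r x := hrP _ hrx
    have h2 := hinj this
    rw [h2] at hrx
    exact hx hrx
  have hrN : ∀ x, x ∈ ({x | h x = 0} \ P)ᶜ → r x ∈ ({x | h x = 0} \ P)ᶜ := by
    intro x hx hrx
    apply hx
    have h1 : h (r x) = 0 := hrx.1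
    rw [hrh x] at h1
    refine ⟨by simpa using neg_eq_zero.mp h1, fun hxP => ?_⟩
    apply hrx.2
    rw [hrP x hxP]
    exact hxP
  let δ : X → Bool := fun x => if x ∈ P then xor (xor (τ x) (τ (r x))) true
    else xor (σ x) (σ (r x))
  -- on N, δ equals the τ-formula
  have hδN : ∀ x ∈ ({x | h x = 0} \ P)ᶜ, δ x = xor (xor (τ x) (τ (r x))) true := by
    intro x hx
    by_cases hxP : x ∈ P
    · simp [δ, hxP]
    · have hx0 : h x ≠ 0 := fun h0 => hx ⟨h0, hxP⟩
      have hx0' : h (r x) ≠ 0 := by rw [hrh x]; simpa using hx0
      simp only [δ, hxP, if_false]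
      rw [hστ x hx0, hστ (r x) hx0', hrh x]
      rcases lt_or_gt_of_ne hx0 with hlt | hgt
      · have : ¬ (- h x < 0) := by linarith
        simp only [hlt, this, decide_true, decide_false]
        cases τ x <;> cases τ (r x) <;> rfl
      · have h1 : ¬ (h x < 0) := by linarith
        have h2 : - h x < 0 := by linarith
        simp only [h1, h2, decide_true, decide_false]
        cases τ x <;> cases τ (r x) <;> rfl
  have hxor : Continuous (fun b : Bool × Bool => xor b.1 b.2) := continuous_of_discreteTopology
  have hxor' : Continuous (fun b : Bool × Bool => xor (xor b.1 b.2) true) :=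
    continuous_of_discreteTopology
  have hUo : IsOpen Pᶜ := hP.isOpen_compl
  have hNo : IsOpen ({x | h x = 0} \ P)ᶜ := hQ.isOpen_compl
  have hδ : Continuous δ := by
    rw [continuous_iff_continuousAt]
    intro x
    by_cases hxP : x ∈ P
    · have hxN : x ∈ ({x | h x = 0} \ P)ᶜ := fun hx => hx.2 hxP
      have hcN : ContinuousOn (fun x => xor (xor (τ x) (τ (r x))) true) ({x | h x = 0} \ P)ᶜ := by
        have : ContinuousOn (fun x => (τ x, τ (r x))) ({x | h x = 0} \ P)ᶜ :=
          hτ.prodMk (hτ.comp hr.continuousOn hrN)
        exact hxor'.comp_continuousOn this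
      refine (hcN.continuousAt (hNo.mem_nhds hxN)).congr ?_
      filter_upwards [hNo.mem_nhds hxN] with y hy
      exact (hδN y hy).symm
    · have hcU : ContinuousOn (fun x => xor (σ x) (σ (r x))) Pᶜ := by
        have : ContinuousOn (fun x => (σ x, σ (r x))) Pᶜ :=
          hσ.prodMk (hσ.comp hr.continuousOn (fun x hx => hrU x hx))
        exact hxor.comp_continuousOn this
      refine (hcU.continuousAt (hUo.mem_nhds hxP)).congr ?_
      filter_upwards [hUo.mem_nhds hxP] with y hy
      have : y ∉ P := hy
      simp [δ, this]
  obtain ⟨p, hp⟩ := hne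
  have hδp : δ p = true := by
    simp only [δ, hp, if_true, hrP p hp]
    cases τ p <;> rfl
  have hconst : ∀ x, δ x = true := by
    intro x
    rw [← hδp]
    exact (isPreconnected_univ.constant hδ.continuousOn (mem_univ x) (mem_univ p))
  refine ⟨σ, hσ, fun x hx => ?_⟩
  have := hconst x
  simp only [δ, hx, if_false] at this
  revert this
  cases σ x <;> cases σ (r x) <;> simp

end Pool.Agent.Lib.MPf9c64b
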