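import Mathlib
import Pool.Agent.Lib.MP_f9c64b_gt.Defs
import Pool.Agent.Lib.MP_f9c64b_gt.Flip
import Pool.Agent.Lib.MP_f9c64b_gt.Alg

/-! Mirrors of geometric reflections. -/

set_option autoImplicit false
set_option linter.unusedSectionVars false

open Topology Set

namespace Pool.Agent.Lib.MPf9c64b

variable {q : ℕ} {W X : Type*} [TopologicalSpace X] [T2Space X] [Group W] [MulAction W X]
  [ContinuousConstSMul W X]

namespace IntegralAffineAction

variable (I : IntegralAffineAction q W X)

theorem realMat_mul (M N : GL (Fin q) ℤ) : realMat (M * N) = realMat M * realMat N := by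
  unfold realMat
  rw [Units.val_mul, Matrix.map_mul_intCast]

theorem realMat_one : realMat (1 : GL (Fin q) ℤ) = 1 := by
  unfold realMat
  rw [Units.val_one, Matrix.map_one] <;> simp

include I in
/-- an element preserving the developing map and fixing a point acts trivially. -/
theorem smul_eq_of_fix [PreconnectedSpace X] {g : W} {x : X} (hx : g • x = x)
    (hg : ∀ z, I.dev (g • z) = I.dev z) (z : X) : g • z = z := by
  have hcont : Continuous (fun z : X => g • z) := continuous_const_smul g
  have hclosed : IsClosed {z : X | g • z = z} := isClosed_eq hcont continuous_id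
  have hopen : IsOpen {z : X | g • z = z} := by
    rw [isOpen_iff_mem_nhds]
    intro z hz
    obtain ⟨e, hez, hee⟩ := I.dev_isLocalHomeomorph z
    have h1 : e.source ∈ 𝓝 z := e.open_source.mem_nhds hez
    have h2 : (fun z : X => g • z) ⁻¹' e.source ∈ 𝓝 z := by
      apply hcont.continuousAt.preimage_mem_nhds
      change e.source ∈ 𝓝 (g • z)
      rw [show g • z = z from hz]
      exact h1
    filter_upwards [h1, h2] with y hy1 hy2
    have h3 := hg y
    rw [hee] at h3
    exact e.injOn hy2 hy1 h3
  have : {z : X | g • z = z} = univ := IsClopen.eq_univ ⟨hclosed, hopen⟩ ⟨x, hx⟩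
  have hz : z ∈ {z : X | g • z = z} := by rw [this]; exact mem_univ z
  exact hz

theorem eq_one_of_fix [PreconnectedSpace X] [FaithfulSMul W X] {g : W} {x : X}
    (hx : g • x = x) (hl : I.lin g = 1) : g = 1 := by
  have hdev : ∀ z, I.dev (g • z) = I.dev z + I.trans g := by
    intro z
    rw [I.dev_smul, hl, realMat_one, Matrix.one_mulVec]
  have ht : I.trans g = 0 := by
    have := hdev x
    rw [hx] at this
    simpa using this
  have h := I.smul_eq_of_fix hx (fun z => by rw [hdev z, ht, add_zero])
  exact eq_of_smul_eq_smul (α := X) (fun z => by rw [h z, one_smul])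

/-- data of a geometric reflection in normal form -/
theorem exists_normal {r : W} (hr : I.IsGeometricReflection r) :
    ∃ (a : Fin q → ℝ) (f : Module.Dual ℝ (Fin q → ℝ)) (κ : ℝ), f a = 2 ∧
      (∀ v, (realMat (I.lin r)).mulVec v = v - f v • a) ∧
      ∀ x, I.dev (r • x) = I.dev x - (f (I.dev x) - κ) • a := by
  obtain ⟨⟨x₀, hx₀⟩, a, f, fa, hf⟩ := hr
  refine ⟨a, f, f (I.dev x₀), fa, hf, fun x => ?_⟩
  have h0 := I.dev_smul r x₀
  rw [hx₀, hf] at h0
  have ht : I.trans r = f (I.dev x₀) • a := by
    have : I.trans r = I.dev x₀ - (I.dev x₀ - f (I.dev x₀) • a) := by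
      nth_rewrite 1 [h0]
      abel
    rw [this]; abel
  rw [I.dev_smul, hf, ht]
  module

/-- the mirror -/
def mirror (_I : IntegralAffineAction q W X) (r : W) : Set X := {x | r • x = x}

theorem isClosed_mirror (r : W) : IsClosed (I.mirror r) :=
  isClosed_eq (continuous_const_smul r) continuous_id

section normal

variable {r : W} {a : Fin q → ℝ} {f : Module.Dual ℝ (Fin q → ℝ)} {κ : ℝ}

theorem h_cont : Continuous (fun x => f (I.dev x) - κ) := by
  have h1 : Continuous f := LinearMap.continuous_of_finiteDimensional f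
  exact (h1.comp I.dev_isLocalHomeomorph.continuous).sub continuous_const

theorem h_smul (fa : f a = 2) (hd : ∀ x, I.dev (r • x) = I.dev x - (f (I.dev x) - κ) • a)
    (x : X) : f (I.dev (r • x)) - κ = - (f (I.dev x) - κ) := by
  rw [hd x, map_sub, map_smul, smul_eq_mul, fa]
  ring

theorem h_mirror (fa : f a = 2) (hd : ∀ x, I.dev (r • x) = I.dev x - (f (I.dev x) - κ) • a)
    {x : X} (hx : x ∈ I.mirror r) : f (I.dev x) - κ = 0 := by
  have := I.h_smul fa hd x
  rw [show r • x = x from hx] at this
  linarith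

/-- the mirror is isolated in the zero set -/
theorem isClosed_diff (hd : ∀ x, I.dev (r • x) = I.dev x - (f (I.dev x) - κ) • a) :
    IsClosed ({x | f (I.dev x) - κ = 0} \ I.mirror r) := by
  rw [← isOpen_compl_iff, isOpen_iff_mem_nhds]
  intro x hx
  by_cases h0 : f (I.dev x) - κ = 0
  · have hxM : x ∈ I.mirror r := by
      by_contra hcon
      exact hx ⟨h0, hcon⟩
    obtain ⟨e, hez, hee⟩ := I.dev_isLocalHomeomorph x
    have hcont : Continuous (fun z : X => r • z) := continuous_const_smul r
    have h1 : e.source ∈ 𝓝 x := e.open_source.mem_nhds hez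
    have h2 : (fun z : X => r • z) ⁻¹' e.source ∈ 𝓝 x := by
      apply hcont.continuousAt.preimage_mem_nhds
      change e.source ∈ 𝓝 (r • x)
      rw [show r • x = x from hxM]
      exact h1
    filter_upwards [h1, h2] with y hy1 hy2
    rintro ⟨hy3, hy4⟩
    apply hy4
    have h3 := hd y
    rw [show f (I.dev y) - κ = 0 from hy3, zero_smul, sub_zero, hee] at h3
    exact e.injOn hy2 hy1 h3
  · have : {x | f (I.dev x) - κ ≠ 0} ∈ 𝓝 x :=
      (isOpen_ne_fun I.h_cont continuous_const).mem_nhds h0
    filter_upwards [this] with y hy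
    exact fun hy' => hy hy'.1

end normal

variable [SimplyConnectedSpace X] [LocallyPathConnectedSpace X]

/-- side function relative to a closed piece of the mirror -/
theorem exists_side {r : W} (hr : I.IsGeometricReflection r) {P : Set X} (hP : IsClosed P)
    (hPM : P ⊆ I.mirror r) (hQ : IsClosed (I.mirror r \ P)) (hne : P.Nonempty) :
    ∃ σ : X → Bool, ContinuousOn σ Pᶜ ∧ ∀ x ∉ P, σ (r • x) = ! σ x := by
  obtain ⟨a, f, κ, fa, -, hd⟩ := I.exists_normal hr
  refine exists_flip (fun x => f (I.dev x) - κ) I.h_cont P hP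
    (fun x hx => I.h_mirror fa hd (hPM hx)) ?_ hne (fun x => r • x) (continuous_const_smul r)
    (MulAction.injective r) (fun x => I.h_smul fa hd x) (fun x hx => hPM hx)
  have : {x | f (I.dev x) - κ = 0} \ P
      = ({x | f (I.dev x) - κ = 0} \ I.mirror r) ∪ (I.mirror r \ P) := by
    ext x
    constructor
    · rintro ⟨h1, h2⟩
      by_cases h3 : x ∈ I.mirror r
      · exact Or.inr ⟨h3, h2⟩
      · exact Or.inl ⟨h1, h3⟩
    · rintro (⟨h1, h2⟩ | ⟨h1, h2⟩)
      · exact ⟨h1, fun h => h2 (hPM h)⟩
      · exact ⟨I.h_mirror fa hd h1, h2⟩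
  rw [this]
  exact (I.isClosed_diff hd).union hQ

/-- the mirror of a geometric reflection is connected -/
theorem isPreconnected_mirror {r : W} (hr : I.IsGeometricReflection r) :
    IsPreconnected (I.mirror r) := by
  rw [isPreconnected_closed_iff]
  intro t t' ht ht' hsub h1 h2
  by_contra hcon
  rw [not_nonempty_iff_eq_empty] at hcon
  obtain ⟨σ, -, hσ⟩ := I.exists_side hr (P := I.mirror r ∩ t)
    ((I.isClosed_mirror r).inter ht) inter_subset_left (by
      have : I.mirror r \ (I.mirror r ∩ t) = I.mirror r ∩ t' := by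
        ext x
        constructor
        · rintro ⟨h3, h4⟩
          refine ⟨h3, (hsub h3).resolve_left fun h5 => h4 ⟨h3, h5⟩⟩
        · rintro ⟨h3, h4⟩
          refine ⟨h3, fun h5 => ?_⟩
          have : x ∈ I.mirror r ∩ (t ∩ t') := ⟨h3, h5.2, h4⟩
          rw [hcon] at this
          exact this
      rw [this]
      exact (I.isClosed_mirror r).inter ht') h1
  obtain ⟨x, hx, hx'⟩ := h2
  have hxP : x ∉ I.mirror r ∩ t := by
    intro h5
    have : x ∈ I.mirror r ∩ (t ∩ t') := ⟨hx, h5.2, hx'⟩
    rw [hcon] at this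
    exact this
  have := hσ x hxP
  rw [show r • x = x from hx] at this
  cases h : σ x <;> simp [h] at this

/-- the side function of a geometric reflection -/
theorem exists_side' {r : W} (hr : I.IsGeometricReflection r) :
    ∃ σ : X → Bool, ContinuousOn σ (I.mirror r)ᶜ ∧ ∀ x ∉ I.mirror r, σ (r • x) = ! σ x :=
  I.exists_side hr (I.isClosed_mirror r) subset_rfl (by simp) hr.1

/-- ping-pong: disjoint mirrors give an infinite dihedral group. -/
theorem mirrors_meet {r s : W} (hr : I.IsGeometricReflection r) (hs : I.IsGeometricReflection s)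
    (hfin : IsOfFinOrder (s * r)) : (I.mirror r ∩ I.mirror s).Nonempty := by
  classical
  by_contra hcon
  rw [not_nonempty_iff_eq_empty] at hcon
  have hdis : ∀ x, x ∈ I.mirror r → x ∉ I.mirror s := by
    intro x h1 h2
    have : x ∈ I.mirror r ∩ I.mirror s := ⟨h1, h2⟩
    rw [hcon] at this
    exact this
  obtain ⟨x₀, hx₀⟩ := hr.1
  obtain ⟨y₀, hy₀⟩ := hs.1
  -- normalised side functions: `true` on the other mirror
  have key : ∀ (r s : W), I.IsGeometricReflection r → I.IsGeometricReflection s →
      (∀ x, x ∈ I.mirror s → x ∉ I.mirror r) →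
      ∃ σ : X → Bool, ContinuousOn σ (I.mirror r)ᶜ ∧ (∀ x ∉ I.mirror r, σ (r • x) = ! σ x) ∧
        ∀ x ∈ I.mirror s, σ x = true := by
    intro r s hr hs hd
    obtain ⟨σ, hσ, hσr⟩ := I.exists_side' hr
    obtain ⟨y, hy⟩ := hs.1
    have hyM : y ∈ I.mirror s := hy
    have hconst : ∀ x ∈ I.mirror s, σ x = σ y := by
      intro x hx
      exact (I.isPreconnected_mirror hs).constant
        (hσ.mono (fun z hz => hd z hz)) hx hyM
    by_cases hy' : σ y = true
    · exact ⟨σ, hσ, hσr, fun x hx => by rw [hconst x hx, hy']⟩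
    · refine ⟨fun x => ! σ x, ?_, ?_, ?_⟩
      · exact (continuous_of_discreteTopology (f := fun b : Bool => !b)).comp_continuousOn hσ
      · intro x hx
        simp [hσr x hx]
      · intro x hx
        change (! σ x) = true
        rw [hconst x hx]
        simpa using hy'
  obtain ⟨σ, hσ, hσr, hσs⟩ := key r s hr hs (fun x hx hx' => hdis x hx' hx)
  obtain ⟨τ, hτ, hτs, hτr⟩ := key s r hs hr (fun x hx hx' => hdis x hx hx')
  -- outer half spaces
  let A : Set X := {x | x ∉ I.mirror r ∧ σ x = false}
  let B : Set X := {x | x ∉ I.mirror s ∧ τ x = false}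
  have hopen : ∀ (ρ : X → Bool) (M : Set X) (b : Bool), IsClosed M → ContinuousOn ρ Mᶜ →
      IsOpen {x | x ∉ M ∧ ρ x = b} := by
    intro ρ M b hM hρ
    exact hρ.isOpen_inter_preimage hM.isOpen_compl (isOpen_discrete {b})
  have hAo : IsOpen A := hopen σ _ false (I.isClosed_mirror r) hσ
  have hBo : IsOpen B := hopen τ _ false (I.isClosed_mirror s) hτ
  have hAo' : IsOpen {x | x ∉ I.mirror r ∧ σ x = true} := hopen σ _ true (I.isClosed_mirror r) hσ
  have hBo' : IsOpen {x | x ∉ I.mirror s ∧ τ x = true} := hopen τ _ true (I.isClosed_mirror s) hτ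
  have hAB : A ∩ B = ∅ := by
    have hcl : IsClosed (A ∩ B) := by
      rw [← isOpen_compl_iff]
      have : (A ∩ B)ᶜ = {x | x ∉ I.mirror r ∧ σ x = true} ∪ {x | x ∉ I.mirror s ∧ τ x = true} := by
        ext x
        constructor
        · intro hx
          by_cases h1 : x ∈ I.mirror r
          · exact Or.inr ⟨hdis x h1, hτr x h1⟩
          · by_cases h2 : x ∈ I.mirror s
            · exact Or.inl ⟨h1, hσs x h2⟩
            · by_cases h3 : σ x = true
              · exact Or.inl ⟨h1, h3⟩
              · by_cases h4 : τ x = true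
                · exact Or.inr ⟨h2, h4⟩
                · exact (hx ⟨⟨h1, by simpa using h3⟩, ⟨h2, by simpa using h4⟩⟩).elim
        · rintro (⟨h1, h2⟩ | ⟨h1, h2⟩) ⟨⟨h3, h4⟩, ⟨h5, h6⟩⟩
          · rw [h2] at h4; simp at h4
          · rw [h2] at h6; simp at h6
      rw [this]
      exact hAo'.union hBo'
    by_contra hne
    have hu : A ∩ B = univ := IsClopen.eq_univ ⟨hcl, hAo.inter hBo⟩ (nonempty_iff_ne_empty.mpr hne)
    have : x₀ ∈ A ∩ B := by rw [hu]; exact mem_univ _
    exact this.1.1 hx₀
  -- movement
  have hsB : ∀ x, x ∈ A ∨ x ∈ I.mirror r → s • x ∈ B := by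
    intro x hx
    have h1 : x ∉ I.mirror s := by
      rcases hx with hx | hx
      · intro h2
        have := hσs x h2
        rw [hx.2] at this; simp at this
      · exact hdis x hx
    have h2 : τ x = true := by
      rcases hx with hx | hx
      · by_contra h3
        have : x ∈ A ∩ B := ⟨hx, h1, by simpa using h3⟩
        rw [hAB] at this
        exact this
      · exact hτr x hx
    refine ⟨?_, by rw [hτs x h1, h2]; rfl⟩
    intro h3
    apply h1
    have h4 : s • (s • x) = s • x := h3
    exact MulAction.injective s h4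
  have hrA : ∀ x, x ∈ B → r • x ∈ A := by
    intro x hx
    have h1 : x ∉ I.mirror r := by
      intro h2
      have := hτr x h2
      rw [hx.2] at this; simp at this
    have h2 : σ x = true := by
      by_contra h3
      have : x ∈ A ∩ B := ⟨⟨h1, by simpa using h3⟩, hx⟩
      rw [hAB] at this
      exact this
    refine ⟨?_, by rw [hσr x h1, h2]; rfl⟩
    intro h3
    apply h1
    have h4 : r • (r • x) = r • x := h3
    exact MulAction.injective r h4
  have hiter : ∀ n : ℕ, ((s * r) ^ (n + 1)) • x₀ ∈ B := by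
    intro n
    induction n with
    | zero =>
      rw [zero_add, pow_one, mul_smul, hx₀]
      exact hsB x₀ (Or.inr hx₀)
    | succ n ih =>
      rw [pow_succ', mul_smul, mul_smul]
      exact hsB _ (Or.inl (hrA _ ih))
  obtain ⟨n, hn, hn1⟩ := hfin.exists_pow_eq_one
  obtain ⟨m, rfl⟩ : ∃ m, n = m + 1 := ⟨n - 1, by omega⟩
  have h1 := hiter m
  rw [hn1, one_smul] at h1
  have h2 := hτr x₀ hx₀
  rw [h1.2] at h2
  simp at h2

/-- The trace argument. -/
theorem lin_pow [FaithfulSMul W X] {r s : W} (hr : I.IsGeometricReflection r)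
    (hs : I.IsGeometricReflection s) {m : ℕ} (hm : 0 < m) (hfin : (s * r) ^ m = 1) :
    I.lin ((s * r) ^ 4) = 1 ∨ I.lin ((s * r) ^ 6) = 1 := by
  obtain ⟨a, f, κ, fa, hf, -⟩ := I.exists_normal hr
  obtain ⟨c, g, κ', gc, hg, -⟩ := I.exists_normal hs
  let T : (Fin q → ℝ) →ₗ[ℝ] (Fin q → ℝ) := Matrix.toLin' (realMat (I.lin (s * r)))
  have hTapp : ∀ v, T v = (realMat (I.lin s)).mulVec ((realMat (I.lin r)).mulVec v) := by
    intro v
    rw [Matrix.toLin'_apply, map_mul, realMat_mul, Matrix.mulVec_mulVec]
  have hT : ∀ v, T v = v - f v • a - g v • c + (f v * g a) • c := by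
    intro v
    rw [hTapp, hf, hg, map_sub, map_smul, smul_eq_mul]
    module
  have hpow : ∀ n : ℕ, T ^ n = Matrix.toLin' (realMat (I.lin ((s * r) ^ n))) := by
    intro n
    induction n with
    | zero => simp [realMat_one]; rfl
    | succ n ih => rw [pow_succ, ih, pow_succ, map_mul, realMat_mul, Matrix.toLin'_mul]; rfl
  have htr : LinearMap.trace ℝ (Fin q → ℝ) T = q - f a - g c + f c * g a := by
    have hT' : T = LinearMap.id - f.smulRight a - g.smulRight c + (g a) • (f.smulRight c) := by
      ext v
      simp only [LinearMap.add_apply, LinearMap.sub_apply, LinearMap.smul_apply, LinearMap.id_apply,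
        LinearMap.smulRight_apply, LinearMap.comp_apply]
      rw [hT]
      simp only [Pi.add_apply, Pi.sub_apply, Pi.smul_apply, smul_eq_mul]
      ring
    rw [hT', map_add, map_sub, map_sub, map_smul, LinearMap.trace_smulRight,
      LinearMap.trace_smulRight, LinearMap.trace_smulRight, LinearMap.trace_id]
    simp only [Module.finrank_fin_fun, smul_eq_mul]
    ring
  have htr2 : LinearMap.trace ℝ (Fin q → ℝ) T
      = ((I.lin (s * r) : Matrix (Fin q) (Fin q) ℤ).trace : ℝ) := by
    change LinearMap.trace ℝ (Fin q → ℝ) (Matrix.toLin' (realMat (I.lin (s * r)))) = _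
    rw [Matrix.trace_toLin'_eq]
    unfold realMat Matrix.trace
    simp
  have hk : g a * f c - 2
      = (((I.lin (s * r) : Matrix (Fin q) (Fin q) ℤ).trace - q + 2 : ℤ) : ℝ) := by
    push_cast
    rw [← htr2, htr, fa, gc]
    ring
  have hTm : T ^ m = 1 := by
    rw [hpow, hfin, map_one, realMat_one]; simp; rfl
  have := two_reflections T c a g f gc fa (fun v => by rw [hT]) _ hk hm hTm
  have hinj : ∀ M : GL (Fin q) ℤ, Matrix.toLin' (realMat M) = 1 → M = 1 := by
    intro M hM
    have h1 : realMat M = 1 := by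
      have : Matrix.toLin' (realMat M) = Matrix.toLin' (1 : Matrix (Fin q) (Fin q) ℝ) := by
        rw [hM]; simp; rfl
      exact Matrix.toLin'.injective this
    apply Units.ext
    ext i j
    have h2 := congrFun (congrFun h1 i) j
    unfold realMat at h2
    rw [Matrix.map_apply, Matrix.one_apply] at h2
    rw [Units.val_one, Matrix.one_apply]
    split_ifs at h2 ⊢ with h3
    · exact_mod_cast h2
    · exact_mod_cast h2
  rcases this with h | h
  · left; rw [hpow] at h; exact hinj _ h
  · right; rw [hpow] at h; exact hinj _ h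

/-- Main statement: the product of two geometric reflections has order 1, 2, 3, 4, 6 or ∞. -/
theorem orderOf_mul_mem [FaithfulSMul W X] {r s : W} (hr : I.IsGeometricReflection r)
    (hs : I.IsGeometricReflection s) (hfin : IsOfFinOrder (s * r)) :
    orderOf (s * r) ∈ ({1, 2, 3, 4, 6} : Set ℕ) := by
  obtain ⟨x, hxr, hxs⟩ := I.mirrors_meet hr hs hfin
  have hx : (s * r) • x = x := by
    rw [mul_smul, show r • x = x from hxr, show s • x = x from hxs]
  have hxn : ∀ n : ℕ, ((s * r) ^ n) • x = x := by
    intro n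
    induction n with
    | zero => simp
    | succ n ih => rw [pow_succ, mul_smul, hx, ih]
  obtain ⟨m, hm, hm1⟩ := hfin.exists_pow_eq_one
  have hdvd : orderOf (s * r) ∣ 4 ∨ orderOf (s * r) ∣ 6 := by
    rcases I.lin_pow hr hs hm hm1 with h | h
    · left; exact orderOf_dvd_of_pow_eq_one (I.eq_one_of_fix (hxn 4) h)
    · right; exact orderOf_dvd_of_pow_eq_one (I.eq_one_of_fix (hxn 6) h)
  rcases hdvd with h | h
  · have hle := Nat.le_of_dvd (by norm_num) h
    generalize orderOf (s * r) = n at h hle
    interval_cases n <;> simp_all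
  · have hle := Nat.le_of_dvd (by norm_num) h
    generalize orderOf (s * r) = n at h hle
    interval_cases n <;> simp_all

end IntegralAffineAction

end Pool.Agent.Lib.MPf9c64b
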