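import Mathlib
import Pool.Agent.Lib.MP_f9c64b_gt.Mirror

/-! Side functions of mirrors, their uniqueness and equivariance. -/

set_option autoImplicit false
set_option linter.unusedSectionVars false

open Topology Set

namespace Pool.Agent.Lib.MPf9c64b

/-- negativity as a Boolean -/
noncomputable def neg (t : ℝ) : Bool := by classical exact decide (t < 0)

theorem neg_mul {l t : ℝ} (hl : l ≠ 0) (ht : t ≠ 0) : neg (l * t) = xor (neg l) (neg t) := by
  classical
  unfold neg
  rcases lt_or_gt_of_ne hl with h1 | h1 <;> rcases lt_or_gt_of_ne ht with h2 | h2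
  · have : 0 < l * t := mul_pos_of_neg_of_neg h1 h2
    simp [h1, h2, this.le, not_lt.mpr this.le]
  · have : l * t < 0 := mul_neg_of_neg_of_pos h1 h2
    simp [h1, this, not_lt.mpr h2.le]
  · have : l * t < 0 := mul_neg_of_pos_of_neg h1 h2
    simp [h2, this, not_lt.mpr h1.le]
  · have : 0 < l * t := mul_pos h1 h2
    simp [not_lt.mpr h1.le, not_lt.mpr h2.le, not_lt.mpr this.le]

section pair
variable {X : Type*} [TopologicalSpace X]

/-- A side pair for `M` inside the zero set of `h`. -/
structure IsSidePair (h : X → ℝ) (M : Set X) (σ τ : X → Bool) : Prop where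
  cσ : ContinuousOn σ Mᶜ
  cτ : ContinuousOn τ ({x | h x = 0} \ M)ᶜ
  rel : ∀ x, h x ≠ 0 → σ x = xor (τ x) (neg (h x))

theorem IsSidePair.uniq [PreconnectedSpace X] [Nonempty X] {h : X → ℝ} {M : Set X}
    (hM : IsClosed M) (hQ : IsClosed ({x | h x = 0} \ M))
    {σ τ σ' τ' : X → Bool} (H : IsSidePair h M σ τ) (H' : IsSidePair h M σ' τ') :
    ∃ c : Bool, (∀ x ∉ M, σ' x = xor c (σ x)) ∧
      (∀ x ∉ ({x | h x = 0} \ M), τ' x = xor c (τ x)) := by
  classical
  let δ : X → Bool := fun x => if x ∈ M then xor (τ x) (τ' x) else xor (σ x) (σ' x)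
  have hδN : ∀ x ∈ ({x | h x = 0} \ M)ᶜ, δ x = xor (τ x) (τ' x) := by
    intro x hx
    by_cases hxP : x ∈ M
    · simp [δ, hxP]
    · have hx0 : h x ≠ 0 := fun h0 => hx ⟨h0, hxP⟩
      simp only [δ, hxP, if_false]
      rw [H.rel x hx0, H'.rel x hx0]
      cases τ x <;> cases τ' x <;> cases neg (h x) <;> rfl
  have hxor : Continuous (fun b : Bool × Bool => xor b.1 b.2) := continuous_of_discreteTopology
  have hUo : IsOpen Mᶜ := hM.isOpen_compl
  have hNo : IsOpen ({x | h x = 0} \ M)ᶜ := hQ.isOpen_compl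
  have hδ : Continuous δ := by
    rw [continuous_iff_continuousAt]
    intro x
    by_cases hxP : x ∈ M
    · have hxN : x ∈ ({x | h x = 0} \ M)ᶜ := fun hx => hx.2 hxP
      have hcN : ContinuousOn (fun x => xor (τ x) (τ' x)) ({x | h x = 0} \ M)ᶜ :=
        hxor.comp_continuousOn (H.cτ.prodMk H'.cτ)
      refine (hcN.continuousAt (hNo.mem_nhds hxN)).congr ?_
      filter_upwards [hNo.mem_nhds hxN] with y hy
      exact (hδN y hy).symm
    · have hcU : ContinuousOn (fun x => xor (σ x) (σ' x)) Mᶜ :=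
        hxor.comp_continuousOn (H.cσ.prodMk H'.cσ)
      refine (hcU.continuousAt (hUo.mem_nhds hxP)).congr ?_
      filter_upwards [hUo.mem_nhds hxP] with y hy
      have : y ∉ M := hy
      simp [δ, this]
  obtain ⟨p⟩ : Nonempty X := inferInstance
  have hconst : ∀ x, δ x = δ p := fun x =>
    isPreconnected_univ.constant hδ.continuousOn (mem_univ x) (mem_univ p)
  refine ⟨δ p, fun x hx => ?_, fun x hx => ?_⟩
  · rw [← hconst x]
    simp only [δ, hx, if_false]
    cases σ x <;> cases σ' x <;> rfl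
  · rw [← hconst x, hδN x hx]
    cases τ x <;> cases τ' x <;> rfl

theorem IsSidePair.pullback {h h' : X → ℝ} {M M' : Set X} {σ' τ' : X → Bool}
    (H : IsSidePair h' M' σ' τ') {w : X → X} (hw : Continuous w) {l : ℝ} (hl : l ≠ 0)
    (hh : ∀ x, h' (w x) = l * h x) (hM : ∀ x, w x ∈ M' ↔ x ∈ M) :
    IsSidePair h M (fun x => σ' (w x)) (fun x => xor (τ' (w x)) (neg l)) where
  cσ := H.cσ.comp hw.continuousOn (fun x hx hx' => hx ((hM x).mp hx'))
  cτ := by
    have h1 : ContinuousOn (fun x => τ' (w x)) ({x | h x = 0} \ M)ᶜ := by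
      refine H.cτ.comp hw.continuousOn (fun x hx hx' => hx ⟨?_, fun h2 => hx'.2 ((hM x).mpr h2)⟩)
      have h3 : h' (w x) = 0 := hx'.1
      rw [hh x] at h3
      exact (mul_eq_zero.mp h3).resolve_left hl
    exact (continuous_of_discreteTopology (f := fun b : Bool => xor b (neg l))).comp_continuousOn h1
  rel x hx := by
    have h1 : h' (w x) ≠ 0 := by rw [hh x]; exact mul_ne_zero hl hx
    change σ' (w x) = xor (xor (τ' (w x)) (neg l)) (neg (h x))
    rw [H.rel (w x) h1, hh x, neg_mul hl hx, Bool.xor_assoc]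

end pair

variable {q : ℕ} {W X : Type*} [TopologicalSpace X] [T2Space X] [Group W] [MulAction W X]
  [ContinuousConstSMul W X] [SimplyConnectedSpace X] [LocallyPathConnectedSpace X]

namespace IntegralAffineAction

variable (I : IntegralAffineAction q W X)

/-- All data attached to a geometric reflection. -/
structure MirrorData (r : W) where
  a : Fin q → ℝ
  f : Module.Dual ℝ (Fin q → ℝ)
  κ : ℝ
  fa : f a = 2
  lin_apply : ∀ v, (realMat (I.lin r)).mulVec v = v - f v • a
  dev_apply : ∀ x, I.dev (r • x) = I.dev x - (f (I.dev x) - κ) • a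
  σ : X → Bool
  τ : X → Bool
  pair : IsSidePair (fun x => f (I.dev x) - κ) (I.mirror r) σ τ

theorem nonempty_mirrorData {r : W} (hr : I.IsGeometricReflection r) :
    Nonempty (I.MirrorData r) := by
  obtain ⟨a, f, κ, fa, hf, hd⟩ := I.exists_normal hr
  obtain ⟨σ, τ, h1, h2, h3⟩ := exists_sides (fun x => f (I.dev x) - κ) I.h_cont (I.mirror r)
    (I.isClosed_mirror r) (fun x hx => I.h_mirror fa hd hx) (I.isClosed_diff hd)
  refine ⟨⟨a, f, κ, fa, hf, hd, σ, τ, ⟨h1, h2, fun x hx => ?_⟩⟩⟩
  have := h3 x hx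
  unfold neg
  convert this

variable {I}

/-- the defining affine function of the mirror on `X` -/
def MirrorData.h {r : W} (D : I.MirrorData r) (x : X) : ℝ := D.f (I.dev x) - D.κ

theorem MirrorData.h_zero {r : W} (D : I.MirrorData r) {x : X} (hx : x ∈ I.mirror r) : D.h x = 0 :=
  I.h_mirror D.fa D.dev_apply hx

/-- transport of mirror data along `w` : proportionality of affine functions -/
theorem MirrorData.exists_ratio {r : W} (w : W) (D : I.MirrorData r)
    (D' : I.MirrorData (w * r * w⁻¹)) : ∃ l : ℝ, l ≠ 0 ∧ ∀ x, D'.h (w • x) = l * D.h x := by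
  classical
  -- both affine functions vanish on the image of the mirror; compare dev (w r x)
  set Lw := realMat (I.lin w) with hLw
  have key : ∀ x, D.h x • Lw.mulVec D.a = D'.h (w • x) • D'.a := by
    intro x
    have e1 : I.dev ((w * r * w⁻¹) • (w • x)) = I.dev (w • (r • x)) := by
      rw [smul_smul, smul_smul]
      congr 2
      group
    rw [D'.dev_apply, I.dev_smul w (r • x), D.dev_apply, Matrix.mulVec_sub, Matrix.mulVec_smul,
      I.dev_smul w x] at e1
    unfold MirrorData.h
    rw [I.dev_smul w x]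
    have e2 : (D'.f (Lw.mulVec (I.dev x) + I.trans w) - D'.κ) • D'.a
        = (D.f (I.dev x) - D.κ) • Lw.mulVec D.a := by
      have e3 := congrArg (fun z => (Lw.mulVec (I.dev x) + I.trans w) - z) e1
      rw [sub_sub_cancel] at e3
      rw [e3]
      abel
    exact e2.symm
  -- evaluate with D'.f
  have key2 : ∀ x, D.h x * D'.f (Lw.mulVec D.a) = 2 * D'.h (w • x) := by
    intro x
    have := congrArg D'.f (key x)
    rw [map_smul, map_smul, D'.fa, smul_eq_mul, smul_eq_mul] at this
    linarith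
  refine ⟨D'.f (Lw.mulVec D.a) / 2, ?_, fun x => by linarith [key2 x]⟩
  intro h0
  have h1 : D'.f (Lw.mulVec D.a) = 0 := by linarith
  -- then D'.h ∘ w = 0 identically, so `w r w⁻¹` acts trivially near any point, contradiction
  have h2 : ∀ x, D'.h (w • x) = 0 := by
    intro x
    have := key2 x
    rw [h1, mul_zero] at this
    linarith
  have h3 : ∀ x, D'.h x = 0 := by
    intro x
    have := h2 (w⁻¹ • x)
    rwa [smul_inv_smul] at this
  -- but D'.h is an open condition: D'.f is nonzero and dev is open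
  obtain ⟨x₀⟩ : Nonempty X := inferInstance
  have hopen : IsOpen (range I.dev) := I.dev_isLocalHomeomorph.isOpenMap.isOpen_range
  have h4 : ∀ v ∈ range I.dev, D'.f v = D'.κ := by
    rintro v ⟨x, rfl⟩
    have := h3 x
    unfold MirrorData.h at this
    linarith
  have h5 : ∀ᶠ t : ℝ in 𝓝 0, I.dev x₀ + t • D'.a ∈ range I.dev := by
    have hc : Continuous (fun t : ℝ => I.dev x₀ + t • D'.a) := by fun_prop
    apply hc.continuousAt.eventually_mem
    apply hopen.mem_nhds
    simp
  obtain ⟨ε, hε, h6⟩ := Metric.eventually_nhds_iff.mp h5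
  have h7 := h4 _ (h6 (y := ε / 2) (by rw [Real.dist_eq, sub_zero, abs_of_pos (by linarith)]; linarith))
  have h8 := h4 _ ⟨x₀, rfl⟩
  rw [map_add, map_smul, h8, D'.fa, smul_eq_mul] at h7
  linarith

theorem mirror_conj (w r : W) (x : X) : w • x ∈ I.mirror (w * r * w⁻¹) ↔ x ∈ I.mirror r := by
  unfold mirror
  simp only [mem_ofPred_eq]
  rw [smul_smul]
  have : w * r * w⁻¹ * w = w * r := by group
  rw [this, mul_smul, smul_left_cancel_iff]

/-- equivariance of sides up to a sign -/
theorem MirrorData.side_conj {r : W} (w : W) (D : I.MirrorData r)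
    (D' : I.MirrorData (w * r * w⁻¹)) :
    ∃ c : Bool, ∀ x ∉ I.mirror r, D'.σ (w • x) = xor c (D.σ x) := by
  obtain ⟨l, hl, hh⟩ := D.exists_ratio w D'
  have H := D'.pair.pullback (h := D.h) (M := I.mirror r) (continuous_const_smul w) hl hh
    (fun x => mirror_conj w r x)
  obtain ⟨c, hc, -⟩ := IsSidePair.uniq (I.isClosed_mirror r)
    (I.isClosed_diff D.dev_apply) D.pair H
  exact ⟨c, hc⟩

/-- the reflection exchanges the sides -/
theorem MirrorData.side_flip {r : W} (hr : I.IsGeometricReflection r) (D : I.MirrorData r) :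
    ∀ x ∉ I.mirror r, D.σ (r • x) = ! D.σ x := by
  have hh : ∀ x, D.h (r • x) = (-1) * D.h x := by
    intro x
    rw [neg_one_mul]
    exact I.h_smul D.fa D.dev_apply x
  have hM : ∀ x, r • x ∈ I.mirror r ↔ x ∈ I.mirror r := by
    intro x
    unfold mirror
    simp only [mem_ofPred_eq]
    rw [smul_left_cancel_iff]
  have H := D.pair.pullback (h := D.h) (M := I.mirror r) (w := fun x => r • x)
    (continuous_const_smul r) (l := -1) (by norm_num) hh hM
  obtain ⟨c, hc, hc'⟩ := IsSidePair.uniq (I.isClosed_mirror r)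
    (I.isClosed_diff D.dev_apply) D.pair H
  obtain ⟨x₀, hx₀⟩ := hr.1
  have hxN : x₀ ∉ ({x | D.h x = 0} \ I.mirror r) := fun h => h.2 hx₀
  have h1 := hc' x₀ hxN
  have h2 : neg (-1) = true := by unfold neg; simp
  simp only [hx₀, h2] at h1
  have hct : c = true := by
    revert h1
    cases D.τ x₀ <;> cases c <;> simp
  intro x hx
  rw [hc x hx, hct]
  cases D.σ x <;> rfl

/-- an element with trivial holonomy commuting with `r` preserves the sides of `r`. -/
theorem MirrorData.side_ker {r : W} (hr : I.IsGeometricReflection r) (D : I.MirrorData r) {g : W}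
    (hg : ∀ x, I.dev (g • x) = I.dev x) (hc : g * r = r * g) :
    ∀ x ∉ I.mirror r, D.σ (g • x) = D.σ x := by
  have hh : ∀ x, D.h (g • x) = 1 * D.h x := by
    intro x
    unfold MirrorData.h
    rw [hg, one_mul]
  have hM : ∀ x, g • x ∈ I.mirror r ↔ x ∈ I.mirror r := by
    intro x
    unfold mirror
    simp only [mem_ofPred_eq]
    rw [smul_smul, ← hc, mul_smul, smul_left_cancel_iff]
  have H := D.pair.pullback (h := D.h) (M := I.mirror r) (w := fun x => g • x)
    (continuous_const_smul g) (l := 1) (by norm_num) hh hM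
  obtain ⟨c, hc1, hc'⟩ := IsSidePair.uniq (I.isClosed_mirror r)
    (I.isClosed_diff D.dev_apply) D.pair H
  obtain ⟨x₀, hx₀⟩ := hr.1
  have hx₀' : x₀ ∈ I.mirror r := hx₀
  have hxN : ∀ x ∈ I.mirror r, x ∉ ({x | D.h x = 0} \ I.mirror r) := fun x hx h => h.2 hx
  have h1 := hc' x₀ (hxN x₀ hx₀')
  have h2 : neg 1 = false := by unfold neg; simp
  have h3 : D.τ (g • x₀) = D.τ x₀ := by
    refine (I.isPreconnected_mirror hr).constant (D.pair.cτ.mono (fun x hx => hxN x hx))
      ((hM x₀).mpr hx₀') hx₀'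
  simp only [h2, h3] at h1
  have hct : c = false := by
    revert h1
    cases D.τ x₀ <;> cases c <;> simp
  intro x hx
  rw [hc1 x hx, hct]
  cases D.σ x <;> rfl

end IntegralAffineAction

end Pool.Agent.Lib.MPf9c64b
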