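import Mathlib
import Pool.Agent.Lib.MP_f9c64b_gt.Sides
import Pool.Agent.Lib.MP_f9c64b_gt.GenPos

/-! Faithfulness of the linear holonomy of a finite group generated by geometric reflections. -/

set_option autoImplicit false
set_option linter.unusedSectionVars false

open Topology Set

namespace Pool.Agent.Lib.MPf9c64b

variable {q : ℕ} {W X : Type*} [TopologicalSpace X] [T2Space X] [Group W] [MulAction W X]
  [ContinuousConstSMul W X] [SimplyConnectedSpace X] [LocallyPathConnectedSpace X]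
  [FaithfulSMul W X]

theorem lin_eq_one_of_mulVec {M : GL (Fin q) ℤ} (h : ∀ v, (realMat M).mulVec v = v) : M = 1 := by
  have h1 : realMat M = 1 := by
    apply Matrix.toLin'.injective
    ext v : 1
    rw [Matrix.toLin'_one]
    ext i : 1
    simp only [LinearMap.comp_apply, Matrix.toLin'_apply, h, LinearMap.id_apply]
  apply Units.ext
  ext i j
  have h2 := congrFun (congrFun h1 i) j
  unfold realMat at h2
  rw [Matrix.map_apply, Matrix.one_apply] at h2
  rw [Units.val_one, Matrix.one_apply]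
  split_ifs at h2 ⊢ with h3
  · exact_mod_cast h2
  · exact_mod_cast h2

namespace IntegralAffineAction

variable (I : IntegralAffineAction q W X)

theorem mulVec_mul (w w' : W) (v : Fin q → ℝ) :
    (realMat (I.lin (w * w'))).mulVec v = (realMat (I.lin w)).mulVec ((realMat (I.lin w')).mulVec v) := by
  rw [map_mul, realMat_mul, Matrix.mulVec_mulVec]

theorem mulVec_inv_cancel (w : W) (v : Fin q → ℝ) :
    (realMat (I.lin w)).mulVec ((realMat (I.lin w⁻¹)).mulVec v) = v := by
  rw [← I.mulVec_mul, mul_inv_cancel, map_one, realMat_one, Matrix.one_mulVec]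

theorem mulVec_inv_cancel' (w : W) (v : Fin q → ℝ) :
    (realMat (I.lin w⁻¹)).mulVec ((realMat (I.lin w)).mulVec v) = v := by
  rw [← I.mulVec_mul, inv_mul_cancel, map_one, realMat_one, Matrix.one_mulVec]

theorem IsGeometricReflection.conj {I : IntegralAffineAction q W X} {r : W}
    (hr : I.IsGeometricReflection r) (w : W) : I.IsGeometricReflection (w * r * w⁻¹) := by
  obtain ⟨⟨x, hx⟩, a, f, fa, hf⟩ := hr
  refine ⟨⟨w • x, ?_⟩, (realMat (I.lin w)).mulVec a,
    f ∘ₗ Matrix.toLin' (realMat (I.lin w⁻¹)), ?_, fun v => ?_⟩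
  · rw [smul_smul, show w * r * w⁻¹ * w = w * r by group, mul_smul, hx]
  · rw [LinearMap.comp_apply, Matrix.toLin'_apply, I.mulVec_inv_cancel', fa]
  · rw [I.mulVec_mul, I.mulVec_mul, hf, Matrix.mulVec_sub, Matrix.mulVec_smul,
      I.mulVec_inv_cancel, LinearMap.comp_apply, Matrix.toLin'_apply]

theorem IsGeometricReflection.mul_self {I : IntegralAffineAction q W X} {r : W}
    (hr : I.IsGeometricReflection r) : r * r = 1 := by
  obtain ⟨⟨x, hx⟩, a, f, fa, hf⟩ := hr
  refine I.eq_one_of_fix (x := x) (by rw [mul_smul, hx, hx]) ?_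
  apply lin_eq_one_of_mulVec
  intro v
  rw [I.mulVec_mul, hf, hf, map_sub, map_smul, fa, smul_eq_mul]
  module

theorem IsGeometricReflection.inv_eq {I : IntegralAffineAction q W X} {r : W}
    (hr : I.IsGeometricReflection r) : r⁻¹ = r := by
  rw [inv_eq_iff_mul_eq_one]
  exact hr.mul_self

variable [Finite W]

/-- distinct reflections have non-proportional functionals -/
theorem MirrorData.indep {I : IntegralAffineAction q W X} {r s : W}
    (hr : I.IsGeometricReflection r) (hs : I.IsGeometricReflection s) (D : I.MirrorData r)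
    (D' : I.MirrorData s) (hne : r ≠ s) :
    ∀ c d : ℝ, c • D.f + d • D'.f = 0 → c = 0 ∧ d = 0 := by
  intro c d hcd
  by_contra hcon
  have hf0 : D.f ≠ 0 := by
    intro h; have := D.fa; rw [h] at this; simp at this
  have hd0 : d ≠ 0 := by
    intro hd
    rw [hd, zero_smul, add_zero] at hcd
    exact hcon ⟨(smul_eq_zero.mp hcd).resolve_right hf0, hd⟩
  set l : ℝ := -c / d with hl
  have hg : ∀ v, D'.f v = l * D.f v := by
    intro v
    have h1 := LinearMap.congr_fun hcd v
    simp only [LinearMap.add_apply, LinearMap.smul_apply, smul_eq_mul, LinearMap.zero_apply] at h1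
    rw [hl]
    field_simp
    linarith
  set u : Fin q → ℝ := l • D'.a - D.a with hu
  have hfu : D.f u = 0 := by
    have h1 := D'.fa
    rw [hg] at h1
    rw [hu, map_sub, map_smul, smul_eq_mul, h1, D.fa]
    norm_num
  have hT : ∀ v, (realMat (I.lin (s * r))).mulVec v = v + D.f v • u := by
    intro v
    rw [I.mulVec_mul, D.lin_apply, D'.lin_apply, hg, map_sub, map_smul, D.fa, hu, smul_eq_mul]
    module
  have hTn : ∀ n : ℕ, ∀ v, (realMat (I.lin ((s * r) ^ n))).mulVec v = v + (n * D.f v) • u := by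
    intro n
    induction n with
    | zero => intro v; simp [realMat_one]
    | succ n ih =>
      intro v
      rw [pow_succ, I.mulVec_mul, hT, ih, map_add, map_smul, hfu, smul_zero, add_zero]
      push_cast
      module
  have hfin : IsOfFinOrder (s * r) := isOfFinOrder_of_finite _
  obtain ⟨n, hn, hn1⟩ := hfin.exists_pow_eq_one
  have hu0 : u = 0 := by
    have h1 := hTn n D.a
    rw [hn1, map_one, realMat_one, Matrix.one_mulVec, D.fa] at h1
    have h2 : ((n : ℝ) * 2) • u = 0 := by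
      have := congrArg (fun z => z - D.a) h1
      simpa using this.symm
    have h3 : ((n : ℝ) * 2) ≠ 0 := by
      have : (n : ℝ) ≠ 0 := by exact_mod_cast hn.ne'
      positivity
    exact (smul_eq_zero.mp h2).resolve_left h3
  obtain ⟨x, hxr, hxs⟩ := I.mirrors_meet hr hs hfin
  have h1 : s * r = 1 := by
    refine I.eq_one_of_fix (x := x) ?_ (lin_eq_one_of_mulVec ?_)
    · rw [mul_smul, show r • x = x from hxr, show s • x = x from hxs]
    · intro v; rw [hT, hu0, smul_zero, add_zero]
  apply hne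
  have h2 : s = r⁻¹ := eq_inv_of_mul_eq_one_left h1
  rw [h2, hr.inv_eq]

/-- reflections are determined by their linear parts -/
theorem refl_eq_of_lin_eq {r s : W} (hr : I.IsGeometricReflection r)
    (hs : I.IsGeometricReflection s) (h : I.lin r = I.lin s) : r = s := by
  by_contra hne
  obtain ⟨D⟩ := I.nonempty_mirrorData hr
  obtain ⟨D'⟩ := I.nonempty_mirrorData hs
  have h1 : ∀ v, D.f v • D.a = D'.f v • D'.a := by
    intro v
    have := D.lin_apply v
    rw [h, D'.lin_apply] at this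
    have h2 := congrArg (fun z => v - z) this
    simpa using h2.symm
  have h2 : D'.f D.a • D.f + (-2 : ℝ) • D'.f = 0 := by
    ext v
    have := congrArg D'.f (h1 (Pi.single v 1))
    rw [map_smul, map_smul, D'.fa, smul_eq_mul, smul_eq_mul] at this
    simp only [LinearMap.comp_apply, LinearMap.add_apply, LinearMap.smul_apply, smul_eq_mul,
      LinearMap.zero_apply, LinearMap.coe_single]
    linarith
  have := (MirrorData.indep hr hs D D' hne _ _ h2).2
  norm_num at this

/-- the type of geometric reflections -/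
abbrev Refl := {r : W // I.IsGeometricReflection r}

/-- chosen mirror data -/
noncomputable def D (r : I.Refl) : I.MirrorData r.1 := (I.nonempty_mirrorData r.2).some

/-- points on no mirror -/
def reg : Set X := {x | ∀ r : I.Refl, x ∉ I.mirror r.1}

/-- points on at least two mirrors -/
def Z2 : Set X := {x | ∃ r s : I.Refl, r ≠ s ∧ x ∈ I.mirror r.1 ∧ x ∈ I.mirror s.1}

theorem dense_reg : Dense I.reg := by
  have h1 : Dense {v : Fin q → ℝ | ∀ r : I.Refl, (I.D r).f v ≠ (I.D r).κ} := by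
    apply dense_forall_ne
    intro r h
    have := (I.D r).fa
    rw [h] at this
    simp at this
  have h2 := h1.preimage I.dev_isLocalHomeomorph.isOpenMap
  refine h2.mono ?_
  intro x hx r hxr
  apply hx r
  have := (I.D r).h_zero hxr
  unfold MirrorData.h at this
  linarith

theorem reg_nonempty : I.reg.Nonempty := I.dense_reg.nonempty

theorem reg_smul (w : W) {x : X} (hx : x ∈ I.reg) : w • x ∈ I.reg := by
  intro r hr
  have h1 : I.IsGeometricReflection (w⁻¹ * r.1 * w⁻¹⁻¹) := r.2.conj w⁻¹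
  apply hx ⟨_, h1⟩
  have h2 := mirror_conj (I := I) w⁻¹ r.1 (w • x)
  rw [inv_smul_smul] at h2
  exact h2.mpr hr

theorem exists_chart (x : X) : ∃ e : OpenPartialHomeomorph X (Fin q → ℝ),
    x ∈ e.source ∧ I.dev = e := I.dev_isLocalHomeomorph x

theorem isPreconnected_Z2 : IsPreconnected (I.Z2)ᶜ := by
  classical
  have hdense : Dense (I.Z2)ᶜ := by
    refine I.dense_reg.mono ?_
    rintro x hx ⟨r, s, -, h1, -⟩
    exact hx r h1
  refine isPreconnected_compl_of_local hdense ?_
  intro x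
  obtain ⟨e, hxe, hde⟩ := I.exists_chart x
  obtain ⟨ε, hε, hball⟩ := Metric.isOpen_iff.mp e.open_target (e x) (e.map_source hxe)
  set B := Metric.ball (e x) ε with hB
  -- the pairs
  let ι := {p : I.Refl × I.Refl // p.1 ≠ p.2}
  let T : Set (Fin q → ℝ) := B \ {v | ∃ i : ι, (I.D i.1.1).f v = (I.D i.1.1).κ ∧
    (I.D i.1.2).f v = (I.D i.1.2).κ}
  have hT : IsPreconnected T :=
    isPreconnected_diff (fun i : ι => (I.D i.1.1).f) (fun i : ι => (I.D i.1.2).f) _ _
      (fun i => MirrorData.indep i.1.1.2 i.1.2.2 _ _ (fun h => i.2 (Subtype.ext h)))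
      Metric.isOpen_ball (convex_ball _ _)
  have hTdense : B ⊆ closure T := by
    have h1 : Dense {v : Fin q → ℝ | ∀ r : I.Refl, (I.D r).f v ≠ (I.D r).κ} := by
      apply dense_forall_ne
      intro r h
      have := (I.D r).fa
      rw [h] at this
      simp at this
    have h2 := h1.open_subset_closure_inter (Metric.isOpen_ball (x := e x) (ε := ε))
    refine h2.trans (closure_mono ?_)
    rintro v ⟨hv1, hv2⟩
    refine ⟨hv1, ?_⟩
    rintro ⟨i, h3, -⟩
    exact hv2 i.1.1 h3
  have hTt : T ⊆ e.target := fun v hv => hball hv.1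
  have himg : IsPreconnected (e.symm '' T) := hT.image _ (e.continuousOn_symm.mono hTt)
  refine ⟨e.source ∩ e ⁻¹' B, ?_, ?_⟩
  · apply (e.isOpen_inter_preimage Metric.isOpen_ball).mem_nhds
    exact ⟨hxe, Metric.mem_ball_self hε⟩
  · refine himg.subset_closure ?_ ?_
    · rintro _ ⟨v, hv, rfl⟩
      refine ⟨⟨e.map_target (hTt hv), ?_⟩, ?_⟩
      · change e (e.symm v) ∈ B
        rw [e.right_inv (hTt hv)]
        exact hv.1
      · rintro ⟨r, s, hrs, h1, h2⟩
        apply hv.2
        refine ⟨⟨(r, s), hrs⟩, ?_, ?_⟩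
        · have := (I.D r).h_zero h1
          unfold MirrorData.h at this
          rw [hde, e.right_inv (hTt hv)] at this
          linarith
        · have := (I.D s).h_zero h2
          unfold MirrorData.h at this
          rw [hde, e.right_inv (hTt hv)] at this
          linarith
    · rintro y ⟨⟨hy1, hy2⟩, -⟩
      have h1 : e y ∈ closure T := hTdense hy2
      have h2 : ContinuousAt e.symm (e y) := e.continuousAt_symm (e.map_source hy1)
      have h3 := mem_closure_image h2 h1
      rwa [e.left_inv hy1] at h3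

/-- every mirror has a point on no other mirror -/
theorem exists_wall (r : I.Refl) : ∃ x ∈ I.mirror r.1, ∀ s : I.Refl, s ≠ r → x ∉ I.mirror s.1 := by
  classical
  obtain ⟨x, hx⟩ := r.2.1
  obtain ⟨e, hxe, hde⟩ := I.exists_chart x
  -- a direction
  have h1 : Dense {v : Fin q → ℝ | ∀ s : {s : I.Refl // s ≠ r},
      ((I.D s.1).f - ((I.D s.1).f (I.D r).a / 2) • (I.D r).f) v ≠ (0 : ℝ)} := by
    apply dense_forall_ne (fun s : {s : I.Refl // s ≠ r} =>
      ((I.D s.1).f - ((I.D s.1).f (I.D r).a / 2) • (I.D r).f)) _ (fun _ => (0 : ℝ))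
    intro s h
    have h2 : (1 : ℝ) • (I.D s.1).f + (-((I.D s.1).f (I.D r).a / 2)) • (I.D r).f = 0 := by
      have h3 : (1 : ℝ) • (I.D s.1).f + (-((I.D s.1).f (I.D r).a / 2)) • (I.D r).f
          = (I.D s.1).f - ((I.D s.1).f (I.D r).a / 2) • (I.D r).f := by module
      rw [h3]
      exact h
    have := (MirrorData.indep s.1.2 r.2 (I.D s.1) (I.D r) (fun h => s.2 (Subtype.ext h)) _ _ h2).1
    norm_num at this
  obtain ⟨v, hv⟩ := h1.nonempty
  set d : Fin q → ℝ := v - ((I.D r).f v / 2) • (I.D r).a with hd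
  have hd1 : (I.D r).f d = 0 := by
    rw [hd, map_sub, map_smul, (I.D r).fa, smul_eq_mul]; ring
  have hd2 : ∀ s : I.Refl, s ≠ r → (I.D s).f d ≠ 0 := by
    intro s hs
    have := hv ⟨s, hs⟩
    simp only [LinearMap.sub_apply, LinearMap.smul_apply, smul_eq_mul] at this
    rw [hd, map_sub, map_smul, smul_eq_mul]
    intro h
    apply this
    linarith
  -- the curve
  have hc : Continuous (fun t : ℝ => e x + t • d) := by fun_prop
  have hc0 : (fun t : ℝ => e x + t • d) 0 = e x := by simp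
  have ht1 : ∀ᶠ t : ℝ in 𝓝[≠] 0, e x + t • d ∈ e.target := by
    apply Filter.Eventually.filter_mono nhdsWithin_le_nhds
    apply hc.continuousAt.eventually_mem
    have := e.open_target.mem_nhds (e.map_source hxe)
    simpa using this
  have hcs : Filter.Tendsto (fun t : ℝ => e.symm (e x + t • d)) (𝓝 0) (𝓝 x) := by
    have h2 : ContinuousAt e.symm (e x) := e.continuousAt_symm (e.map_source hxe)
    have h3 : Filter.Tendsto (fun t : ℝ => e x + t • d) (𝓝 0) (𝓝 (e x)) := by
      have := hc.tendsto 0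
      simpa using this
    have h4 := h2.tendsto.comp h3
    rw [e.left_inv hxe] at h4
    exact h4
  have hopen : ({y | (I.D r).f (I.dev y) - (I.D r).κ = 0} \ I.mirror r.1)ᶜ ∈ 𝓝 x :=
    (I.isClosed_diff (I.D r).dev_apply).isOpen_compl.mem_nhds (fun h => h.2 hx)
  have ht2 : ∀ᶠ t : ℝ in 𝓝[≠] 0,
      e.symm (e x + t • d) ∈ ({y | (I.D r).f (I.dev y) - (I.D r).κ = 0} \ I.mirror r.1)ᶜ :=
    Filter.Eventually.filter_mono nhdsWithin_le_nhds (hcs.eventually_mem hopen)
  have ht3 : ∀ s : I.Refl, s ≠ r → ∀ᶠ t : ℝ in 𝓝[≠] 0,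
      (I.D s).f (e x + t • d) ≠ (I.D s).κ := by
    intro s hs
    by_cases h0 : (I.D s).f (e x) = (I.D s).κ
    · have : ∀ᶠ t : ℝ in 𝓝[≠] (0 : ℝ), t ≠ 0 := self_mem_nhdsWithin
      filter_upwards [this] with t ht
      rw [map_add, map_smul, h0, smul_eq_mul]
      intro h
      have h5 : t * (I.D s).f d = 0 := by linarith
      exact (mul_ne_zero ht (hd2 s hs)) h5
    · apply Filter.Eventually.filter_mono nhdsWithin_le_nhds
      have h6 : Continuous (fun t : ℝ => (I.D s).f (e x + t • d)) :=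
        (LinearMap.continuous_of_finiteDimensional (I.D s).f).comp hc
      have h7 : (fun t : ℝ => (I.D s).f (e x + t • d)) 0 ≠ (I.D s).κ := by simpa using h0
      exact h6.continuousAt.eventually_ne h7
  have ht3' : ∀ᶠ t : ℝ in 𝓝[≠] 0, ∀ s : {s : I.Refl // s ≠ r},
      (I.D s.1).f (e x + t • d) ≠ (I.D s.1).κ := by
    rw [Filter.eventually_all]
    exact fun s => ht3 s.1 s.2
  obtain ⟨t, ht1, ht2, ht3⟩ := (ht1.and (ht2.and ht3')).exists
  refine ⟨e.symm (e x + t • d), ?_, ?_⟩
  · by_contra hcon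
    apply ht2
    refine ⟨?_, hcon⟩
    change (I.D r).f (I.dev (e.symm (e x + t • d))) - (I.D r).κ = 0
    rw [hde, e.right_inv ht1, map_add, map_smul, hd1, smul_zero, add_zero]
    have := (I.D r).h_zero hx
    unfold MirrorData.h at this
    rw [hde] at this
    exact this
  · intro s hs hmem
    apply ht3 ⟨s, hs⟩
    have := (I.D s).h_zero hmem
    unfold MirrorData.h at this
    rw [hde, e.right_inv ht1] at this
    linarith

/-- sides -/
noncomputable def sg (r : I.Refl) (x : X) : Bool := (I.D r).σ x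

/-- conjugation on reflections -/
def cj (w : W) (r : I.Refl) : I.Refl := ⟨w * r.1 * w⁻¹, r.2.conj w⟩

theorem cj_surj (w : W) (r : I.Refl) : ∃ s, I.cj w s = r := by
  refine ⟨I.cj w⁻¹ r, Subtype.ext ?_⟩
  simp only [cj]
  group

theorem cj_inj (w : W) {r s : I.Refl} (h : I.cj w r = I.cj w s) : r = s := by
  have := congrArg Subtype.val h
  simp only [cj] at this
  exact Subtype.ext (by simpa using this)

theorem sg_smul (w : W) (r : I.Refl) {x y : X} (hx : x ∉ I.mirror r.1) (hy : y ∉ I.mirror r.1) :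
    I.sg (I.cj w r) (w • x) = I.sg (I.cj w r) (w • y) ↔ I.sg r x = I.sg r y := by
  obtain ⟨c, hc⟩ := (I.D r).side_conj w (I.D (I.cj w r))
  unfold sg
  rw [hc x hx, hc y hy]
  cases c <;> cases (I.D r).σ x <;> cases (I.D r).σ y <;> simp

theorem sg_flip (r : I.Refl) {x : X} (hx : x ∉ I.mirror r.1) : I.sg r (r.1 • x) = ! I.sg r x :=
  (I.D r).side_flip r.2 x hx

theorem sg_eventually (r : I.Refl) {x : X} (hx : x ∉ I.mirror r.1) :
    ∀ᶠ y in 𝓝 x, y ∉ I.mirror r.1 ∧ I.sg r y = I.sg r x := by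
  have h1 : (I.mirror r.1)ᶜ ∈ 𝓝 x := (I.isClosed_mirror r.1).isOpen_compl.mem_nhds hx
  have h2 : ContinuousAt (I.D r).σ x := (I.D r).pair.cσ.continuousAt h1
  have h3 : ∀ᶠ y in 𝓝 x, (I.D r).σ y ∈ ({(I.D r).σ x} : Set Bool) :=
    h2.eventually_mem ((isOpen_discrete _).mem_nhds rfl)
  filter_upwards [h1, h3] with y hy1 hy2
  exact ⟨hy1, hy2⟩

section base

variable {p : X}

/-- simple reflections with respect to the base point `p` -/
def simple (p : X) : Set W :=
  {s | ∃ hs : I.IsGeometricReflection s, ∀ r : I.Refl, I.sg r (s • p) ≠ I.sg r p ↔ r = ⟨s, hs⟩}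

/-- wall lemma -/
theorem wall (hp : p ∈ I.reg) (r : I.Refl) {x : X} (hxr : x ∈ I.mirror r.1)
    (hx : ∀ s : I.Refl, s ≠ r → x ∉ I.mirror s.1) (w : W)
    (hw : ∀ s : I.Refl, s ≠ r → I.sg s x = I.sg s (w • p)) :
    w⁻¹ * r.1 * w ∈ I.simple p ∧ (∀ s : I.Refl, s ≠ r → I.sg s (r.1 • w • p) = I.sg s (w • p)) ∧
      I.sg r (r.1 • w • p) = ! I.sg r (w • p) := by
  classical
  have hwp : w • p ∈ I.reg := I.reg_smul w hp
  have hev : ∀ᶠ y in 𝓝 x, ∀ s : {s : I.Refl // s ≠ r}, y ∉ I.mirror s.1.1 ∧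
      I.sg s.1 y = I.sg s.1 x := by
    rw [Filter.eventually_all]
    exact fun s => I.sg_eventually s.1 (hx s.1 s.2)
  have hcont : Continuous (fun y : X => r.1 • y) := continuous_const_smul r.1
  have hev2 : ∀ᶠ y in 𝓝 x, ∀ s : {s : I.Refl // s ≠ r}, r.1 • y ∉ I.mirror s.1.1 ∧
      I.sg s.1 (r.1 • y) = I.sg s.1 x := by
    have h1 : Filter.Tendsto (fun y : X => r.1 • y) (𝓝 x) (𝓝 x) := by
      have := hcont.tendsto x
      rwa [show r.1 • x = x from hxr] at this
    exact h1.eventually hev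
  -- a regular point near x
  obtain ⟨z, ⟨hz1, hz2⟩, hzreg⟩ : ∃ z, (z ∈ {y | (∀ s : {s : I.Refl // s ≠ r}, y ∉ I.mirror s.1.1 ∧
      I.sg s.1 y = I.sg s.1 x) ∧ ∀ s : {s : I.Refl // s ≠ r}, r.1 • y ∉ I.mirror s.1.1 ∧
      I.sg s.1 (r.1 • y) = I.sg s.1 x}) ∧ z ∈ I.reg := by
    obtain ⟨z, hz1, hz2⟩ := mem_closure_iff_nhds.mp (I.dense_reg x) _ (hev.and hev2)
    exact ⟨z, hz1, hz2⟩
  -- arrange the side of r
  obtain ⟨z, hzreg, hz1, hz2, hz3⟩ : ∃ z ∈ I.reg, (∀ s : I.Refl, s ≠ r → I.sg s z = I.sg s x) ∧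
      (∀ s : I.Refl, s ≠ r → I.sg s (r.1 • z) = I.sg s x) ∧ I.sg r z = I.sg r (w • p) := by
    by_cases h : I.sg r z = I.sg r (w • p)
    · exact ⟨z, hzreg, fun s hs => (hz1 ⟨s, hs⟩).2, fun s hs => (hz2 ⟨s, hs⟩).2, h⟩
    · refine ⟨r.1 • z, I.reg_smul _ hzreg, fun s hs => (hz2 ⟨s, hs⟩).2, fun s hs => ?_, ?_⟩
      · rw [smul_smul, r.2.mul_self, one_smul]
        exact (hz1 ⟨s, hs⟩).2
      · rw [I.sg_flip r (hzreg r)]
        revert h
        cases I.sg r z <;> cases I.sg r (w • p) <;> simp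
  -- z and w•p have the same signs
  have hsame : ∀ s : I.Refl, I.sg s z = I.sg s (w • p) := by
    intro s
    by_cases hs : s = r
    · rw [hs]; exact hz3
    · rw [hz1 s hs, hw s hs]
  have hsame2 : ∀ s : I.Refl, I.sg s (r.1 • z) = I.sg s (r.1 • w • p) := by
    intro s
    obtain ⟨s', rfl⟩ := I.cj_surj r.1 s
    rw [I.sg_smul r.1 s' (hzreg s') (hwp s')]
    exact hsame s'
  have hA : ∀ s : I.Refl, s ≠ r → I.sg s (r.1 • w • p) = I.sg s (w • p) := by
    intro s hs
    rw [← hsame2 s, hz2 s hs, hw s hs]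
  have hB : I.sg r (r.1 • w • p) = ! I.sg r (w • p) := I.sg_flip r (hwp r)
  refine ⟨?_, hA, hB⟩
  have hrefl : I.IsGeometricReflection (w⁻¹ * r.1 * w) := by
    have := r.2.conj w⁻¹
    rwa [inv_inv] at this
  refine ⟨hrefl, fun s => ?_⟩
  have hs1 : (w⁻¹ * r.1 * w) • p ∈ I.reg := I.reg_smul _ hp
  have e1 : w • (w⁻¹ * r.1 * w) • p = r.1 • w • p := by
    rw [smul_smul, smul_smul]
    congr 1
    group
  rw [Ne, ← I.sg_smul w s (hs1 s) (hp s), e1]
  have hcj : I.cj w ⟨w⁻¹ * r.1 * w, hrefl⟩ = r := by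
    apply Subtype.ext
    simp only [cj]
    group
  constructor
  · intro h
    by_contra hne
    apply h
    apply hA
    intro h2
    apply hne
    apply I.cj_inj w
    rw [h2, hcj]
  · intro h
    rw [h, hcj, hB]
    cases I.sg r (w • p) <;> simp

/-- the signs determine chambers: every point off `Z2` has the signs of some `w • p`,
`w ∈ ⟨simple⟩`. -/
theorem cover (hp : p ∈ I.reg) : ∀ x ∉ I.Z2, ∃ w ∈ Subgroup.closure (I.simple p),
    ∀ r : I.Refl, x ∉ I.mirror r.1 → I.sg r x = I.sg r (w • p) := by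
  classical
  set W' := Subgroup.closure (I.simple p) with hW'
  let Y : Set X := {x | ∃ w ∈ W', ∀ r : I.Refl, x ∉ I.mirror r.1 → I.sg r x = I.sg r (w • p)}
  have hloc : ∀ x ∈ (I.Z2)ᶜ, ∀ᶠ y in 𝓝 x, (y ∈ Y ↔ x ∈ Y) := by
    intro x hx
    by_cases hreg : ∃ r : I.Refl, x ∈ I.mirror r.1
    · obtain ⟨r, hr⟩ := hreg
      have hother : ∀ s : I.Refl, s ≠ r → x ∉ I.mirror s.1 := by
        intro s hs hxs
        exact hx ⟨s, r, hs, hxs, hr⟩
      have hev : ∀ᶠ y in 𝓝 x, ∀ s : {s : I.Refl // s ≠ r}, y ∉ I.mirror s.1.1 ∧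
          I.sg s.1 y = I.sg s.1 x := by
        rw [Filter.eventually_all]
        exact fun s => I.sg_eventually s.1 (hother s.1 s.2)
      filter_upwards [hev] with y hy
      constructor
      · rintro ⟨w, hwW, hw⟩
        refine ⟨w, hwW, fun s hs => ?_⟩
        have hsr : s ≠ r := fun h => hs (h ▸ hr)
        rw [← (hy ⟨s, hsr⟩).2]
        exact hw s (hy ⟨s, hsr⟩).1
      · rintro ⟨w, hwW, hw⟩
        have hw' : ∀ s : I.Refl, s ≠ r → I.sg s x = I.sg s (w • p) := fun s hs =>
          hw s (hother s hs)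
        by_cases hyr : I.sg r y = I.sg r (w • p)
        · refine ⟨w, hwW, fun s _ => ?_⟩
          by_cases hs : s = r
          · rw [hs]; exact hyr
          · rw [(hy ⟨s, hs⟩).2, hw' s hs]
        · obtain ⟨h1, h2, h3⟩ := I.wall hp r hr hother w hw'
          refine ⟨r.1 * w, ?_, fun s _ => ?_⟩
          · have : r.1 * w = w * (w⁻¹ * r.1 * w) := by group
            rw [this]
            exact W'.mul_mem hwW (Subgroup.subset_closure h1)
          · rw [mul_smul]
            by_cases hs : s = r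
            · rw [hs, h3]
              revert hyr
              cases I.sg r y <;> cases I.sg r (w • p) <;> simp
            · rw [h2 s hs, (hy ⟨s, hs⟩).2, hw' s hs]
    · push Not at hreg
      have hev : ∀ᶠ y in 𝓝 x, ∀ s : I.Refl, y ∉ I.mirror s.1 ∧ I.sg s y = I.sg s x := by
        rw [Filter.eventually_all]
        exact fun s => I.sg_eventually s (hreg s)
      filter_upwards [hev] with y hy
      constructor
      · rintro ⟨w, hwW, hw⟩
        exact ⟨w, hwW, fun s _ => by rw [← (hy s).2]; exact hw s (hy s).1⟩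
      · rintro ⟨w, hwW, hw⟩
        exact ⟨w, hwW, fun s _ => by rw [(hy s).2]; exact hw s (hreg s)⟩
  have hcont : ContinuousOn (fun x => (decide (x ∈ Y) : Bool)) (I.Z2)ᶜ := by
    intro x hx
    apply ContinuousAt.continuousWithinAt
    refine (continuousAt_const (y := decide (x ∈ Y))).congr ?_
    filter_upwards [hloc x hx] with y hy
    simp [hy]
  have hpZ : p ∈ (I.Z2)ᶜ := by
    rintro ⟨r, s, -, h1, -⟩
    exact hp r h1
  have hpY : p ∈ Y := ⟨1, W'.one_mem, fun r _ => by rw [one_smul]⟩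
  intro x hx
  have h1 := I.isPreconnected_Z2.constant hcont hx hpZ
  have h2 : x ∈ Y := by
    simpa [hpY] using h1
  exact h2

/-- simple reflections generate. -/
theorem closure_simple (hp : p ∈ I.reg)
    (hgen : Subgroup.closure {r : W | I.IsGeometricReflection r} = ⊤) :
    Subgroup.closure (I.simple p) = ⊤ := by
  rw [eq_top_iff, ← hgen, Subgroup.closure_le]
  intro r hr
  obtain ⟨x, hx, hx'⟩ := I.exists_wall ⟨r, hr⟩
  have hxZ : x ∉ I.Z2 := by
    rintro ⟨s, t, hst, h1, h2⟩
    by_cases hs : s = ⟨r, hr⟩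
    · exact hx' t (fun h => hst (by rw [hs, h])) h2
    · exact hx' s hs h1
  obtain ⟨w, hwW, hw⟩ := I.cover hp x hxZ
  obtain ⟨h1, -, -⟩ := I.wall hp ⟨r, hr⟩ hx hx' w (fun s hs => hw s (hx' s hs))
  have : r = w * (w⁻¹ * r * w) * w⁻¹ := by group
  rw [SetLike.mem_coe, this]
  exact mul_mem (mul_mem hwW (Subgroup.subset_closure h1)) (inv_mem hwW)

/-- exchange -/
theorem exchange (hp : p ∈ I.reg) (l : List W) (hl : ∀ s ∈ l, s ∈ I.simple p) :
    ∀ r : I.Refl, I.sg r (l.prod • p) ≠ I.sg r p →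
      ∃ l' : List W, (∀ s ∈ l', s ∈ I.simple p) ∧ l'.length + 1 = l.length ∧
        r.1 * l.prod = l'.prod := by
  induction l with
  | nil => intro r hr; simp at hr
  | cons t l ih =>
    intro r hr
    obtain ⟨ht, ht'⟩ := hl t (by simp)
    have hlp : l.prod • p ∈ I.reg := I.reg_smul _ hp
    by_cases hrt : r = ⟨t, ht⟩
    · refine ⟨l, fun s hs => hl s (by simp [hs]), by simp, ?_⟩
      rw [hrt, List.prod_cons, ← mul_assoc, ht.mul_self, one_mul]
    · -- `t⁻¹ r t` separates `l.prod • p` from `p`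
      have h1 : I.sg r (t • p) = I.sg r p := by
        by_contra h
        exact hrt ((ht' r).mp h)
      rw [List.prod_cons, mul_smul, ← h1] at hr
      obtain ⟨r', hr'⟩ := I.cj_surj t r
      rw [← hr'] at hr
      rw [Ne, I.sg_smul t r' (hlp r') (hp r')] at hr
      obtain ⟨l', h2, h3, h4⟩ := ih (fun s hs => hl s (by simp [hs])) r' hr
      refine ⟨t :: l', ?_, by simp [h3], ?_⟩
      · intro s hs
        rcases List.mem_cons.mp hs with rfl | hs
        · exact hl _ (by simp)
        · exact h2 s hs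
      · rw [List.prod_cons, List.prod_cons, ← h4, ← hr']
        simp only [cj]
        group

/-- the signs determine the group element -/
theorem eq_one_of_signs (hp : p ∈ I.reg)
    (hgen : Subgroup.closure {r : W | I.IsGeometricReflection r} = ⊤) {g : W}
    (hg : ∀ r : I.Refl, I.sg r (g • p) = I.sg r p) : g = 1 := by
  classical
  have hinv : ∀ s ∈ I.simple p, s⁻¹ ∈ I.simple p := by
    rintro s ⟨hs, hs'⟩
    rw [hs.inv_eq]
    exact ⟨hs, hs'⟩
  have hex : ∃ n : ℕ, ∃ l : List W, l.length = n ∧ (∀ s ∈ l, s ∈ I.simple p) ∧ l.prod = g := by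
    have h1 : g ∈ Subgroup.closure (I.simple p) := by
      rw [I.closure_simple hp hgen]; trivial
    rw [← Subgroup.mem_toSubmonoid, Subgroup.closure_toSubmonoid] at h1
    obtain ⟨l, hl, hlg⟩ := Submonoid.exists_list_of_mem_closure h1
    refine ⟨l.length, l, rfl, fun s hs => ?_, hlg⟩
    rcases hl s hs with h | h
    · exact h
    · have := hinv _ h
      rwa [inv_inv] at this
  obtain ⟨l, hln, hl, hlg⟩ := Nat.find_spec hex
  have hmin := fun m (hm : m < Nat.find hex) => Nat.find_min hex hm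
  cases l with
  | nil => simpa using hlg.symm
  | cons s l =>
    exfalso
    obtain ⟨hs, hs'⟩ := hl s (by simp)
    have hlp : l.prod • p ∈ I.reg := I.reg_smul _ hp
    -- `s` separates `l.prod • p` from `p`
    have h1 : I.sg ⟨s, hs⟩ (l.prod • p) ≠ I.sg ⟨s, hs⟩ p := by
      have h2 := hg ⟨s, hs⟩
      rw [← hlg, List.prod_cons, mul_smul, I.sg_flip ⟨s, hs⟩ (hlp ⟨s, hs⟩)] at h2
      intro h3
      rw [h3] at h2
      cases h : I.sg ⟨s, hs⟩ p <;> simp [h] at h2
    obtain ⟨l', h2, h3, h4⟩ := I.exchange hp l (fun t ht => hl t (by simp [ht])) _ h1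
    refine hmin l'.length ?_ ⟨l', rfl, h2, ?_⟩
    · rw [← hln, List.length_cons]; omega
    · rw [← h4, ← hlg, List.prod_cons]

end base

/-- The linear holonomy of a finite group generated by geometric reflections is faithful. -/
theorem lin_injective (hgen : Subgroup.closure {r : W | I.IsGeometricReflection r} = ⊤) :
    Function.Injective I.lin := by
  rw [injective_iff_map_eq_one]
  intro g hg
  obtain ⟨p, hp⟩ := I.reg_nonempty
  have hdev : ∀ x, I.dev (g • x) = I.dev x + I.trans g := by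
    intro x
    rw [I.dev_smul, hg, realMat_one, Matrix.one_mulVec]
  have hpow : ∀ n : ℕ, ∀ x, I.dev ((g ^ n) • x) = I.dev x + (n : ℝ) • I.trans g := by
    intro n
    induction n with
    | zero => intro x; simp
    | succ n ih =>
      intro x
      rw [pow_succ, mul_smul, ih, hdev]
      push_cast
      module
  obtain ⟨n, hn, hn1⟩ := (isOfFinOrder_of_finite g).exists_pow_eq_one
  have ht : I.trans g = 0 := by
    have h1 := hpow n p
    rw [hn1, one_smul] at h1
    have h2 : (n : ℝ) • I.trans g = 0 := by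
      have := congrArg (fun z => z - I.dev p) h1
      simpa using this.symm
    have h3 : (n : ℝ) ≠ 0 := by exact_mod_cast hn.ne'
    exact (smul_eq_zero.mp h2).resolve_left h3
  have hdev' : ∀ x, I.dev (g • x) = I.dev x := fun x => by rw [hdev, ht, add_zero]
  apply I.eq_one_of_signs hp hgen
  intro r
  have hcomm : g * r.1 = r.1 * g := by
    have h1 : g * r.1 * g⁻¹ = r.1 := by
      apply I.refl_eq_of_lin_eq (r.2.conj g) r.2
      rw [map_mul, map_mul, hg, one_mul, map_inv, hg, inv_one, mul_one]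
    calc g * r.1 = (g * r.1 * g⁻¹) * g := by group
      _ = r.1 * g := by rw [h1]
  exact (I.D r).side_ker r.2 hdev' hcomm p (hp r)

end IntegralAffineAction

end Pool.Agent.Lib.MPf9c64b
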