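import Mathlib
import Pool.Agent.Lib.MP_f9c64b_gt.Chambers

/-! Integral roots and coroots of geometric reflections, and the root datum. -/

set_option autoImplicit false
set_option linter.unusedSectionVars false

open Topology Set

namespace Pool.Agent.Lib.MPf9c64b

variable {q : ℕ}

/-- `(α, c)` is a root-coroot pair for the integral matrix `M`, with surjective coroot -/
structure IsPair (M : GL (Fin q) ℤ) (α : Fin q → ℤ) (c : Module.Dual ℤ (Fin q → ℤ)) : Prop where
  cα : c α = 2
  apply : ∀ v, (M : Matrix (Fin q) (Fin q) ℤ).mulVec v = v - c v • α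
  surj : ∃ v, c v = 1

/-- real vector of an integral vector -/
def toR (v : Fin q → ℤ) : Fin q → ℝ := fun i => (v i : ℝ)

theorem toR_inj {v w : Fin q → ℤ} (h : toR v = toR w) : v = w := by
  funext i
  have := congrFun h i
  unfold toR at this
  exact_mod_cast this

theorem toR_sub (v w : Fin q → ℤ) : toR (v - w) = toR v - toR w := by
  funext i; simp [toR]

theorem toR_smul (n : ℤ) (v : Fin q → ℤ) : toR (n • v) = (n : ℝ) • toR v := by
  funext i; simp [toR]

theorem toR_neg (v : Fin q → ℤ) : toR (-v) = - toR v := by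
  funext i; simp [toR]

theorem realMat_mulVec (M : GL (Fin q) ℤ) (v : Fin q → ℤ) :
    (realMat M).mulVec (toR v) = toR ((M : Matrix (Fin q) (Fin q) ℤ).mulVec v) := by
  funext i
  simp [realMat, toR, Matrix.mulVec, dotProduct]

/-- existence of an integral root-coroot pair -/
theorem exists_pair {M : GL (Fin q) ℤ} {a : Fin q → ℝ} {f : Module.Dual ℝ (Fin q → ℝ)}
    (fa : f a = 2) (hf : ∀ v, (realMat M).mulVec v = v - f v • a) :
    ∃ α c, IsPair M α c := by
  classical
  have ha : a ≠ 0 := by rintro rfl; simp at fa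
  obtain ⟨j, hj⟩ : ∃ j, a j ≠ 0 := by
    by_contra h
    push Not at h
    exact ha (funext h)
  set N : (Fin q → ℤ) → (Fin q → ℤ) := fun v => v - (M : Matrix (Fin q) (Fin q) ℤ).mulVec v with hN
  have hNR : ∀ v, toR (N v) = f (toR v) • a := by
    intro v
    rw [hN]
    simp only
    rw [toR_sub, ← realMat_mulVec, hf]
    simp
  let Nl : (Fin q → ℤ) →ₗ[ℤ] (Fin q → ℤ) :=
    LinearMap.id - Matrix.mulVecLin (M : Matrix (Fin q) (Fin q) ℤ)
  have hNl : ∀ v, Nl v = N v := fun v => rfl
  let ρ : (Fin q → ℤ) →ₗ[ℤ] ℤ := (LinearMap.proj j : (Fin q → ℤ) →ₗ[ℤ] ℤ) ∘ₗ Nl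
  have hρ : ∀ v, ρ v = N v j := fun v => rfl
  have hρN : ∀ v, ρ v = 0 → N v = 0 := by
    intro v hv
    apply toR_inj
    rw [hNR]
    have h1 : (f (toR v) • a) j = 0 := by
      rw [← hNR]; rw [hρ] at hv; simp [toR, hv]
    have h2 : f (toR v) = 0 := by
      rw [Pi.smul_apply, smul_eq_mul] at h1
      exact (mul_eq_zero.mp h1).resolve_right hj
    rw [h2, zero_smul]
    funext i; simp [toR]
  obtain ⟨d, hd⟩ := IsPrincipalIdealRing.principal (LinearMap.range ρ)
  have hd0 : d ≠ 0 := by
    intro hd0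
    rw [hd0] at hd
    have h1 : ∀ v, ρ v = 0 := by
      intro v
      have : ρ v ∈ Submodule.span ℤ {(0:ℤ)} := by rw [← hd]; exact ⟨v, rfl⟩
      simpa using this
    have h2 : ∀ v : Fin q → ℤ, f (toR v) = 0 := by
      intro v
      have h3 := hNR v
      rw [hρN v (h1 v)] at h3
      have h4 := congrFun h3 j
      simp only [toR, Pi.zero_apply, Int.cast_zero, Pi.smul_apply, smul_eq_mul] at h4
      exact (mul_eq_zero.mp h4.symm).resolve_right hj
    have h3 : f = 0 := by
      ext i
      have h5 := h2 (Pi.single i 1)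
      have h6 : toR (Pi.single i 1 : Fin q → ℤ) = Pi.single i 1 := by
        funext k
        by_cases hk : k = i
        · subst hk; simp [toR]
        · simp [toR, hk]
      rw [h6] at h5
      simpa using h5
    rw [h3] at fa
    simp at fa
  obtain ⟨v0, hv0⟩ : ∃ v0, ρ v0 = d := by
    have : d ∈ LinearMap.range ρ := by rw [hd]; exact Submodule.mem_span_singleton_self d
    exact this
  have hdvd : ∀ v, d ∣ ρ v := by
    intro v
    have : ρ v ∈ Submodule.span ℤ {d} := by rw [← hd]; exact ⟨v, rfl⟩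
    obtain ⟨k, hk⟩ := Submodule.mem_span_singleton.mp this
    exact ⟨k, by rw [← hk, smul_eq_mul, mul_comm]⟩
  have hcd : ∀ v, ρ v / d * d = ρ v := fun v => Int.ediv_mul_cancel (hdvd v)
  let c : Module.Dual ℤ (Fin q → ℤ) :=
    { toFun := fun v => ρ v / d
      map_add' := fun v w => by
        rw [map_add]
        exact Int.add_ediv_of_dvd_left (hdvd v)
      map_smul' := fun n v => by
        rw [map_smul]
        simp only [smul_eq_mul, RingHom.id_apply]
        exact Int.mul_ediv_assoc n (hdvd v) }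
  have hc : ∀ v, c v = ρ v / d := fun v => rfl
  have hcN : ∀ v, N v = c v • N v0 := by
    intro v
    have h1 : N (v - c v • v0) = 0 := by
      apply hρN
      rw [map_sub, map_smul, hv0, smul_eq_mul, hc, hcd, sub_self]
    rw [← hNl, map_sub, map_smul, hNl, hNl] at h1
    exact sub_eq_zero.mp h1
  have hcv0 : c v0 = 1 := by
    rw [hc, hv0]; exact Int.ediv_self hd0
  have hα0 : toR (N v0) ≠ 0 := by
    intro h
    have h1 := congrFun h j
    simp only [toR, Pi.zero_apply] at h1
    rw [← hρ, hv0] at h1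
    exact hd0 (by exact_mod_cast h1)
  refine ⟨N v0, c, ?_, ?_, v0, hcv0⟩
  · -- `c α = 2`
    have h1 := hNR (N v0)
    rw [hcN (N v0), toR_smul] at h1
    have h2 : f (toR (N v0)) • a = (2 : ℝ) • toR (N v0) := by
      rw [hNR, map_smul, fa, smul_smul, smul_eq_mul, mul_comm]
    rw [h2, ← sub_eq_zero, ← sub_smul] at h1
    have h3 := (smul_eq_zero.mp h1).resolve_right hα0
    have h4 : ((c (N v0) : ℤ) : ℝ) = ((2 : ℤ) : ℝ) := by push_cast; linarith
    exact_mod_cast h4
  · intro v
    rw [← hcN, hN]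
    simp

/-- the real extension of a pair -/
theorem IsPair.real {M : GL (Fin q) ℤ} {α : Fin q → ℤ} {c : Module.Dual ℤ (Fin q → ℤ)}
    (h : IsPair M α c) : ∃ f : Module.Dual ℝ (Fin q → ℝ), (∀ v, f (toR v) = c v) ∧
      ∀ v, (realMat M).mulVec v = v - f v • toR α := by
  classical
  let f : Module.Dual ℝ (Fin q → ℝ) :=
    ∑ i, (c (Pi.single i 1) : ℝ) • (LinearMap.proj i : (Fin q → ℝ) →ₗ[ℝ] ℝ)
  have hf : ∀ v, f (toR v) = c v := by
    intro v
    have h1 : v = ∑ i, v i • (Pi.single i 1 : Fin q → ℤ) := by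
      funext k
      simp [Finset.sum_apply, Pi.single_apply]
    conv_rhs => rw [h1]
    rw [map_sum]
    simp only [f, LinearMap.sum_apply, LinearMap.smul_apply, LinearMap.proj_apply, smul_eq_mul,
      map_smul, toR]
    push_cast
    exact Finset.sum_congr rfl fun i _ => mul_comm _ _
  refine ⟨f, hf, ?_⟩
  have h2 : Matrix.toLin' (realMat M) = LinearMap.id - LinearMap.toSpanSingleton ℝ _ (toR α) ∘ₗ f := by
    apply LinearMap.pi_ext'
    intro i
    ext1
    have h6 : toR (Pi.single i 1 : Fin q → ℤ) = Pi.single i 1 := by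
      funext k
      by_cases hk : k = i
      · subst hk; simp [toR]
      · simp [toR, hk]
    simp only [LinearMap.comp_apply, LinearMap.sub_apply, LinearMap.id_apply,
      LinearMap.toSpanSingleton_apply, Matrix.toLin'_apply, LinearMap.coe_single]
    rw [← h6, realMat_mulVec, h.apply, toR_sub, toR_smul, hf]
  intro v
  have := LinearMap.congr_fun h2 v
  simpa using this

/-- uniqueness up to sign -/
theorem IsPair.unique {M : GL (Fin q) ℤ} {α β : Fin q → ℤ} {c d : Module.Dual ℤ (Fin q → ℤ)}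
    (h : IsPair M α c) (h' : IsPair M β d) : (β = α ∧ d = c) ∨ (β = -α ∧ d = -c) := by
  have h1 : ∀ v, c v • α = d v • β := by
    intro v
    have h2 := h.apply v
    rw [h'.apply] at h2
    exact (sub_right_injective h2).symm
  obtain ⟨u, hu⟩ := h.surj
  obtain ⟨w, hw⟩ := h'.surj
  have h2 : α = d u • β := by rw [← h1, hu, one_smul]
  have h3 : β = c w • α := by rw [h1, hw, one_smul]
  have hα : α ≠ 0 := by
    intro h0
    have := h.cα
    rw [h0, map_zero] at this
    norm_num at this
  have hβ : β ≠ 0 := by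
    intro h0
    have := h'.cα
    rw [h0, map_zero] at this
    norm_num at this
  have h4 : d u * c w = 1 := by
    have h5 : (d u * c w) • α = (1 : ℤ) • α := by
      rw [one_smul, mul_smul, ← h3, ← h2]
    exact smul_left_injective ℤ hα h5
  rcases Int.eq_one_or_neg_one_of_mul_eq_one h4 with h5 | h5
  · left
    have h6 : β = α := by rw [h2, h5, one_smul]
    refine ⟨h6, ?_⟩
    ext i : 1
    ext
    have := h1 (Pi.single i 1)
    rw [h6] at this
    simpa using (smul_left_injective ℤ hα this).symm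
  · right
    have h6 : β = -α := by rw [h2, h5, neg_one_smul, neg_neg]
    refine ⟨h6, ?_⟩
    ext i : 1
    ext
    have := h1 (Pi.single i 1)
    rw [h6, smul_neg, ← neg_smul] at this
    have h7 := smul_left_injective ℤ hα this
    simp only [LinearMap.comp_apply, LinearMap.neg_apply, LinearMap.coe_single]
    omega

/-- transport of pairs -/
theorem IsPair.conj {M : GL (Fin q) ℤ} {α : Fin q → ℤ} {c : Module.Dual ℤ (Fin q → ℤ)}
    (h : IsPair M α c) (g : GL (Fin q) ℤ) :
    IsPair (g * M * g⁻¹) ((g : Matrix (Fin q) (Fin q) ℤ).mulVec α)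
      (c ∘ₗ Matrix.mulVecLin ((g⁻¹ : GL (Fin q) ℤ) : Matrix (Fin q) (Fin q) ℤ)) := by
  have e1 : ∀ v, ((g⁻¹ : GL (Fin q) ℤ) : Matrix (Fin q) (Fin q) ℤ).mulVec
      ((g : Matrix (Fin q) (Fin q) ℤ).mulVec v) = v := by
    intro v
    rw [Matrix.mulVec_mulVec, ← Units.val_mul, inv_mul_cancel, Units.val_one, Matrix.one_mulVec]
  have e2 : ∀ v, (g : Matrix (Fin q) (Fin q) ℤ).mulVec
      (((g⁻¹ : GL (Fin q) ℤ) : Matrix (Fin q) (Fin q) ℤ).mulVec v) = v := by
    intro v
    rw [Matrix.mulVec_mulVec, ← Units.val_mul, mul_inv_cancel, Units.val_one, Matrix.one_mulVec]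
  refine ⟨?_, ?_, ?_⟩
  · rw [LinearMap.comp_apply, Matrix.mulVecLin_apply, e1, h.cα]
  · intro v
    rw [Units.val_mul, Units.val_mul, ← Matrix.mulVec_mulVec, ← Matrix.mulVec_mulVec, h.apply,
      Matrix.mulVec_sub, Matrix.mulVec_smul, e2, LinearMap.comp_apply, Matrix.mulVecLin_apply]
  · obtain ⟨v, hv⟩ := h.surj
    exact ⟨(g : Matrix (Fin q) (Fin q) ℤ).mulVec v, by
      rw [LinearMap.comp_apply, Matrix.mulVecLin_apply, e1, hv]⟩

variable {W X : Type*} [TopologicalSpace X] [T2Space X] [Group W] [MulAction W X]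
  [ContinuousConstSMul W X] [SimplyConnectedSpace X] [LocallyPathConnectedSpace X]
  [FaithfulSMul W X] [Finite W]

namespace IntegralAffineAction

variable (I : IntegralAffineAction q W X)

/-- two geometric reflections in a finite group with proportional normal vectors coincide -/
theorem eq_of_parallel {r s : W} (hr : I.IsGeometricReflection r) (hs : I.IsGeometricReflection s)
    {α β : Fin q → ℤ} {c d : Module.Dual ℤ (Fin q → ℤ)} (h : IsPair (I.lin r) α c)
    (h' : IsPair (I.lin s) β d) {l : ℝ} (hl : toR β = l • toR α) : r = s := by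
  obtain ⟨f, hf1, hf2⟩ := h.real
  obtain ⟨g, hg1, hg2⟩ := h'.real
  have hfα : f (toR α) = 2 := by rw [hf1, h.cα]; norm_num
  have hgβ : g (toR β) = 2 := by rw [hg1, h'.cα]; norm_num
  have hgα : l * g (toR α) = 2 := by rw [← hgβ, hl, map_smul, smul_eq_mul]
  have hT : ∀ v, (realMat (I.lin (r * s))).mulVec v = v + (l * g v - f v) • toR α := by
    intro v
    rw [I.mulVec_mul, hg2, hf2, hl, map_sub, map_smul, map_smul, hfα, smul_eq_mul, smul_eq_mul]
    module
  have hTn : ∀ n : ℕ, ∀ v, (realMat (I.lin ((r * s) ^ n))).mulVec v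
      = v + (n * (l * g v - f v)) • toR α := by
    intro n
    induction n with
    | zero => intro v; simp [realMat_one]
    | succ n ih =>
      intro v
      rw [pow_succ, I.mulVec_mul, hT, ih, map_add, map_add, map_smul, map_smul, hfα,
        smul_eq_mul, smul_eq_mul]
      have : l * (g v + (l * g v - f v) * g (toR α)) - (f v + (l * g v - f v) * 2)
          = l * g v - f v := by
        linear_combination (l * g v - f v) * hgα
      rw [this]
      push_cast
      module
  obtain ⟨n, hn, hn1⟩ := (isOfFinOrder_of_finite (r * s)).exists_pow_eq_one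
  have hα0 : toR α ≠ 0 := by
    intro h0
    rw [h0, map_zero] at hfα
    norm_num at hfα
  have hδ : ∀ v, l * g v - f v = 0 := by
    intro v
    have h1 := hTn n v
    rw [hn1, map_one, realMat_one, Matrix.one_mulVec] at h1
    have h2 : ((n : ℝ) * (l * g v - f v)) • toR α = 0 := by
      have := congrArg (fun z => z - v) h1
      simpa using this.symm
    have h3 : (n : ℝ) ≠ 0 := by exact_mod_cast hn.ne'
    have h4 := (smul_eq_zero.mp h2).resolve_right hα0
    exact (mul_eq_zero.mp h4).resolve_left h3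
  have h1 : I.lin (r * s) = 1 := by
    apply lin_eq_one_of_mulVec
    intro v
    rw [hT, hδ, zero_smul, add_zero]
  apply I.refl_eq_of_lin_eq hr hs
  rw [map_mul] at h1
  rw [eq_inv_of_mul_eq_one_left h1, ← map_inv, hs.inv_eq]

/-- two geometric reflections in a finite group with the same coroot coincide -/
theorem eq_of_coroot {r s : W} (hr : I.IsGeometricReflection r) (hs : I.IsGeometricReflection s)
    {α β : Fin q → ℤ} {c : Module.Dual ℤ (Fin q → ℤ)} (h : IsPair (I.lin r) α c)
    (h' : IsPair (I.lin s) β c) : r = s := by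
  by_contra hne
  obtain ⟨f, hf1, hf2⟩ := h.real
  obtain ⟨g, hg1, hg2⟩ := h'.real
  have hfg : ∀ v, f v = g v := by
    have : f = g := by
      apply LinearMap.pi_ext'
      intro i
      ext1
      have h6 : toR (Pi.single i 1 : Fin q → ℤ) = Pi.single i 1 := by
        funext k
        by_cases hk : k = i
        · subst hk; simp [toR]
        · simp [toR, hk]
      simp only [LinearMap.comp_apply, LinearMap.coe_single]
      rw [← h6, hf1, hg1]
    intro v; rw [this]
  obtain ⟨D⟩ := I.nonempty_mirrorData hr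
  obtain ⟨E⟩ := I.nonempty_mirrorData hs
  have h1 : ∀ v, D.f v * 2 = f v * D.f (toR α) := by
    intro v
    have h2 := D.lin_apply v
    rw [hf2] at h2
    have h3 : f v • toR α = D.f v • D.a := sub_right_injective h2
    have h4 := congrArg D.f h3
    rw [map_smul, map_smul, D.fa, smul_eq_mul, smul_eq_mul] at h4
    exact h4.symm
  have h2 : ∀ v, E.f v * 2 = f v * E.f (toR β) := by
    intro v
    have h2 := E.lin_apply v
    rw [hg2] at h2
    have h3 : g v • toR β = E.f v • E.a := sub_right_injective h2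
    have h4 := congrArg E.f h3
    rw [map_smul, map_smul, E.fa, smul_eq_mul, smul_eq_mul, ← hfg] at h4
    exact h4.symm
  have h3 : E.f (toR β) • D.f + (- D.f (toR α)) • E.f = 0 := by
    ext i
    simp only [LinearMap.comp_apply, LinearMap.add_apply, LinearMap.smul_apply, smul_eq_mul,
      LinearMap.zero_apply, LinearMap.coe_single]
    linear_combination (1/2) * E.f (toR β) * h1 (Pi.single i 1)
      - (1/2) * D.f (toR α) * h2 (Pi.single i 1)
  have h4 := (MirrorData.indep hr hs D E hne _ _ h3).1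
  have h5 := h2 E.a
  rw [h4, E.fa, mul_zero] at h5
  norm_num at h5

/-- the set of root-coroot pairs of all geometric reflections -/
def rootSet : Set ((Fin q → ℤ) × Module.Dual ℤ (Fin q → ℤ)) :=
  {x | ∃ r : W, I.IsGeometricReflection r ∧ IsPair (I.lin r) x.1 x.2}

theorem rootSet_finite : I.rootSet.Finite := by
  classical
  have h1 : I.rootSet ⊆ ⋃ r : I.Refl, {x | IsPair (I.lin r.1) x.1 x.2} := by
    rintro x ⟨r, hr, hx⟩
    exact mem_iUnion.mpr ⟨⟨r, hr⟩, hx⟩
  refine Set.Finite.subset (Set.finite_iUnion fun r => ?_) h1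
  obtain ⟨_, a, f, fa, hf⟩ := r.2
  obtain ⟨α, c, h⟩ := exists_pair fa hf
  refine Set.Finite.subset (Set.toFinite {(α, c), (-α, -c)}) ?_
  rintro ⟨β, d⟩ hx
  rcases h.unique hx with ⟨h1, h2⟩ | ⟨h1, h2⟩
  · left; simp only at h1 h2; rw [h1, h2]
  · right; simp only at h1 h2; rw [h1, h2]; rfl

instance : Finite I.rootSet := I.rootSet_finite

theorem pair_root_ne_zero {M : GL (Fin q) ℤ} {α : Fin q → ℤ} {c : Module.Dual ℤ (Fin q → ℤ)}
    (h : IsPair M α c) : α ≠ 0 := by
  intro h0
  have := h.cα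
  rw [h0, map_zero] at this
  norm_num at this

theorem root_inj {x y : I.rootSet} (h : x.1.1 = y.1.1) : x = y := by
  obtain ⟨r, hr, hx⟩ := x.2
  obtain ⟨s, hs, hy⟩ := y.2
  have hrs : r = s := I.eq_of_parallel hr hs hx hy (l := 1) (by rw [one_smul, h])
  subst hrs
  rcases hx.unique hy with ⟨h1, h2⟩ | ⟨h1, h2⟩
  · exact Subtype.ext (Prod.ext h1.symm h2.symm)
  · exfalso
    apply pair_root_ne_zero hx
    rw [← h] at h1
    funext i
    have := congrFun h1 i
    simp only [Pi.neg_apply] at this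
    simp only [Pi.zero_apply]
    omega

theorem coroot_inj {x y : I.rootSet} (h : x.1.2 = y.1.2) : x = y := by
  obtain ⟨r, hr, hx⟩ := x.2
  obtain ⟨s, hs, hy⟩ := y.2
  rw [← h] at hy
  have hrs : r = s := I.eq_of_coroot hr hs hx hy
  subst hrs
  rcases hx.unique hy with ⟨h1, h2⟩ | ⟨h1, h2⟩
  · exact Subtype.ext (Prod.ext h1.symm h)
  · exfalso
    have h3 := hx.cα
    have h4 := LinearMap.congr_fun h2 x.1.1
    rw [LinearMap.neg_apply, h3] at h4
    norm_num at h4

/-- the linear action on `ℤ^q` -/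
noncomputable def Tl : W →* ((Fin q → ℤ) ≃ₗ[ℤ] (Fin q → ℤ)) :=
  (LinearMap.GeneralLinearGroup.generalLinearEquiv ℤ (Fin q → ℤ)).toMonoidHom.comp
    ((Matrix.GeneralLinearGroup.toLin (n := Fin q) (R := ℤ)).toMonoidHom.comp I.lin)

theorem Tl_apply (w : W) (v : Fin q → ℤ) :
    I.Tl w v = (I.lin w : Matrix (Fin q) (Fin q) ℤ).mulVec v := by
  simp [Tl]

theorem IsPair.invol {M : GL (Fin q) ℤ} {α : Fin q → ℤ} {c : Module.Dual ℤ (Fin q → ℤ)}
    (h : IsPair M α c) (v : Fin q → ℤ) : (M : Matrix (Fin q) (Fin q) ℤ).mulVec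
      ((M : Matrix (Fin q) (Fin q) ℤ).mulVec v) = v := by
  rw [h.apply, h.apply, map_sub, map_smul, h.cα, smul_eq_mul]
  module

/-- closure under reflections -/
theorem refl_mem {r s : W} (hr : I.IsGeometricReflection r) (hs : I.IsGeometricReflection s)
    {α β : Fin q → ℤ} {c d : Module.Dual ℤ (Fin q → ℤ)} (h : IsPair (I.lin r) α c)
    (h' : IsPair (I.lin s) β d) : ((β - c β • α, d - d α • c) :
      (Fin q → ℤ) × Module.Dual ℤ (Fin q → ℤ)) ∈ I.rootSet := by
  refine ⟨r * s * r⁻¹, hs.conj r, ?_⟩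
  have h1 := h'.conj (I.lin r)
  have h2 : I.lin (r * s * r⁻¹) = I.lin r * I.lin s * (I.lin r)⁻¹ := by
    rw [map_mul, map_mul, map_inv]
  rw [h2]
  convert h1 using 1
  · exact (h.apply β).symm
  · ext i : 1
    ext
    have h3 : (I.lin r)⁻¹ = I.lin r := by rw [← map_inv, hr.inv_eq]
    simp only [LinearMap.comp_apply, LinearMap.sub_apply, LinearMap.smul_apply, smul_eq_mul,
      Matrix.mulVecLin_apply, h3, LinearMap.coe_single]
    rw [h.apply, map_sub, map_smul, smul_eq_mul]
    ring

/-- the root datum -/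
noncomputable def P : RootDatum I.rootSet (Fin q → ℤ) (Module.Dual ℤ (Fin q → ℤ)) :=
  RootPairing.mk' (Module.Dual.eval ℤ (Fin q → ℤ))
    ⟨fun x => x.1.1, fun _ _ h => I.root_inj h⟩
    ⟨fun x => x.1.2, fun _ _ h => I.coroot_inj h⟩
    (by
      rintro ⟨x, r, hr, hx⟩
      exact hx.cα)
    (by
      rintro ⟨x, r, hr, hx⟩ _ ⟨⟨y, s, hs, hy⟩, rfl⟩
      exact ⟨⟨_, I.refl_mem hr hs hx hy⟩, rfl⟩)
    (by
      rintro ⟨x, r, hr, hx⟩ _ ⟨⟨y, s, hs, hy⟩, rfl⟩
      exact ⟨⟨_, I.refl_mem hr hs hx hy⟩, rfl⟩)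

theorem P_reflection (x : I.rootSet) {r : W} (hx : IsPair (I.lin r) x.1.1 x.1.2) :
    I.P.reflection x = I.Tl r := by
  ext1 v
  rw [RootPairing.reflection_apply, I.Tl_apply, hx.apply]
  rfl

theorem P_isReduced : I.P.IsReduced := by
  constructor
  intro x y hdep
  obtain ⟨r, hr, hx⟩ := x.2
  obtain ⟨s, hs, hy⟩ := y.2
  change x.1.1 = y.1.1 ∨ x.1.1 = - y.1.1
  have hdep' : ¬ LinearIndependent ℤ ![x.1.1, y.1.1] := hdep
  rw [LinearIndependent.pair_iff] at hdep'
  push Not at hdep'
  obtain ⟨m, n, hmn, hne⟩ := hdep'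
  have hx0 := pair_root_ne_zero hx
  have hy0 := pair_root_ne_zero hy
  have hn : n ≠ 0 := by
    intro hn
    rw [hn, zero_smul, add_zero] at hmn
    exact hne ((smul_eq_zero.mp hmn).resolve_right hx0) hn
  have hl : toR y.1.1 = (-(m : ℝ) / n) • toR x.1.1 := by
    have h1 : (m : ℝ) • toR x.1.1 + (n : ℝ) • toR y.1.1 = 0 := by
      rw [← toR_smul, ← toR_smul]
      have : toR (m • x.1.1 + n • y.1.1) = 0 := by rw [hmn]; funext i; simp [toR]
      rw [← this]
      funext i; simp [toR]
    have hn' : (n : ℝ) ≠ 0 := by exact_mod_cast hn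
    have h2 : (n : ℝ) • toR y.1.1 = (-(m : ℝ)) • toR x.1.1 := by
      rw [neg_smul]; exact (neg_eq_of_add_eq_zero_right h1).symm
    rw [div_eq_mul_inv, mul_comm, mul_smul, ← h2, smul_smul, inv_mul_cancel₀ hn', one_smul]
  have hrs : r = s := I.eq_of_parallel hr hs hx hy hl
  subst hrs
  rcases hx.unique hy with ⟨h1, h2⟩ | ⟨h1, h2⟩
  · left; exact h1.symm
  · right; rw [h1, neg_neg]

theorem Tl_injective (hgen : Subgroup.closure {r : W | I.IsGeometricReflection r} = ⊤) :
    Function.Injective I.Tl := by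
  unfold Tl
  simp only [MonoidHom.coe_comp]
  exact (MulEquiv.injective _).comp ((MulEquiv.injective _).comp (I.lin_injective hgen))

theorem range_Tl (hgen : Subgroup.closure {r : W | I.IsGeometricReflection r} = ⊤) :
    I.Tl.range = MonoidHom.range ((RootPairing.Equiv.weightHom I.P).domRestrict I.P.weylGroup) := by
  rw [RootPairing.range_weylGroup_weightHom, MonoidHom.range_eq_map, ← hgen,
    MonoidHom.map_closure]
  congr 1
  ext g
  constructor
  · rintro ⟨r, hr, rfl⟩
    obtain ⟨_, a, f, fa, hf⟩ := id hr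
    obtain ⟨α, c, h⟩ := exists_pair fa hf
    exact ⟨⟨(α, c), r, hr, h⟩, I.P_reflection _ h⟩
  · rintro ⟨x, rfl⟩
    obtain ⟨r, hr, hx⟩ := x.2
    exact ⟨r, hr, (I.P_reflection x hx).symm⟩

/-- The main structural theorem: a finite group generated by geometric reflections is the Weyl
group of a reduced root datum on `ℤ^q`. -/
theorem exists_rootDatum (hgen : Subgroup.closure {r : W | I.IsGeometricReflection r} = ⊤) :
    ∃ (ι : Type) (_ : Finite ι) (P : RootDatum ι (Fin q → ℤ) (Module.Dual ℤ (Fin q → ℤ)))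
      (e : W ≃* P.weylGroup), P.IsReduced ∧
      (∀ (w : W) (v : Fin q → ℤ),
        RootPairing.Equiv.weightHom P (e w : RootPairing.Aut P) v
          = (I.lin w : Matrix (Fin q) (Fin q) ℤ).mulVec v) ∧
      (∀ w : W, I.IsGeometricReflection w ↔
        ∃ i : ι, (e w : RootPairing.Aut P) = RootPairing.Equiv.reflection P i) := by
  classical
  let ψ := (RootPairing.Equiv.weightHom I.P).domRestrict I.P.weylGroup
  have hψ : Function.Injective ψ := by
    intro g g' h
    exact Subtype.ext (RootPairing.Equiv.weightHom_injective I.P h)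
  let e : W ≃* I.P.weylGroup :=
    (MonoidHom.ofInjective (I.Tl_injective hgen)).trans
      ((MulEquiv.subgroupCongr (I.range_Tl hgen)).trans (MonoidHom.ofInjective hψ).symm)
  have he : ∀ w, ψ (e w) = I.Tl w := by
    intro w
    have h1 : (MonoidHom.ofInjective hψ) (e w)
        = (MulEquiv.subgroupCongr (I.range_Tl hgen)) (MonoidHom.ofInjective (I.Tl_injective hgen) w) := by
      simp only [e, MulEquiv.trans_apply, MulEquiv.apply_symm_apply]
    have h2 := congrArg Subtype.val h1
    exact h2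
  have he' : ∀ w, RootPairing.Equiv.weightHom I.P (e w : RootPairing.Aut I.P) = I.Tl w := he
  refine ⟨I.rootSet, inferInstance, I.P, e, I.P_isReduced, ?_, ?_⟩
  · intro w v
    rw [he', I.Tl_apply]
  · intro w
    constructor
    · intro hw
      obtain ⟨_, a, f, fa, hf⟩ := id hw
      obtain ⟨α, c, h⟩ := exists_pair fa hf
      refine ⟨⟨(α, c), w, hw, h⟩, ?_⟩
      apply RootPairing.Equiv.weightHom_injective I.P
      rw [he', RootPairing.Equiv.weightHom_apply, RootPairing.Equiv.reflection_weightEquiv,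
        I.P_reflection _ h]
    · rintro ⟨x, hx⟩
      obtain ⟨r, hr, hp⟩ := x.2
      have h1 := congrArg (RootPairing.Equiv.weightHom I.P) hx
      rw [he', RootPairing.Equiv.weightHom_apply, RootPairing.Equiv.reflection_weightEquiv,
        I.P_reflection _ hp] at h1
      rw [I.Tl_injective hgen h1]
      exact hr

end IntegralAffineAction

end Pool.Agent.Lib.MPf9c64b
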